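import Pool.Agent.Y903.TX.Core
import Pool.Agent.R105.TP.Del2

/-! Exact Turán numbers for hereditary classes: deletion of vertices of small degree. (The proof is that of
`Pool.Agent.R573.CL.Ex`, with a parameter instead of a fixed constant.) -/

set_option autoImplicit false
set_option linter.unusedVariables false
set_option linter.unusedSectionVars false
set_option maxRecDepth 100000
set_option maxHeartbeats 4000000

open Finset
open scoped Classical

namespace Pool.Agent.T2H13.BK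
open Pool.Agent.Y439.Loc hiding sum_nonneg' EE
open Pool.Agent.TH773
open Pool.Agent.TH773.Turan34 (K43Free turan)
open Pool.Agent.Y439
open Pool.Agent.Y903.TX
open Pool.Agent.R105.TP

/-- a hereditary class of 3-graphs, depending on the number `N` of vertices at the start, for which
stability and the bound for large minimum degree hold -/
structure ClsE (e : ℝ) (P : ℕ → ∀ n, Finset (Finset (Fin n)) → Prop) (K : ℝ)
    (Q : ∀ n, Finset (Finset (Fin n)) → Prop) : Prop where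
  K0 : 0 ≤ K
  her : ∀ (N m : ℕ) (v : Fin (m + 1)) (H : Finset (Finset (Fin (m + 1)))), P N (m + 1) H →
    P N m (del v H)
  stab : ∀ N n : ℕ, 0 < n → N ≤ 2 * n →
    ∀ H : Finset (Finset (Fin n)), (∀ e ∈ H, e.card = 3) → K43Free H → P N n H →
      (H.card : ℝ) ≤ (5 / 54 + e ^ 2 / 72) * (n : ℝ) ^ 3 ∧
      ∃ g : Fin n → Fin 3, ((symmDiff H (turan g)).card : ℝ) ≤
        K * (5 / 54 * (n : ℝ) ^ 3 - H.card) + e ^ 2 / 72 * (n : ℝ) ^ 3
  core : ∀ N n : ℕ, 0 < n → N ≤ 2 * n → ∀ (H : Finset (Finset (Fin n))) (g : Fin n → Fin 3),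
    (∀ e ∈ H, e.card = 3) → K43Free H → P N n H → 1 ≤ e * n →
    ((symmDiff H (turan g)).card : ℝ) ≤ (e / 6) ^ 2 * (n : ℝ) ^ 3 →
    (5 / 54 - (e / 6) ^ 2) * (n : ℝ) ^ 3 ≤ (H.card : ℝ) →
    (∀ v, (5 / 18 - e / 2) * (n : ℝ) ^ 2 ≤ ((H.filter fun e => v ∈ e).card : ℝ)) →
    H.card ≤ tnum n ∧ (H.card = tnum n → Q n H)

theorem exact_of_clsE {e : ℝ} (he0 : 0 < e) (hes : e ≤ 1 / 10 ^ 30)
    {P : ℕ → ∀ n, Finset (Finset (Fin n)) → Prop} {K : ℝ}
    {Q : ∀ n, Finset (Finset (Fin n)) → Prop} (C : ClsE e P K Q) : ∃ n0 : ℕ, ∀ n, n0 ≤ n →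
      ∀ H : Finset (Finset (Fin n)), (∀ e ∈ H, e.card = 3) → K43Free H → P n n H →
        tnum n ≤ H.card → H.card = tnum n ∧ Q n H := by
  have he1 : e ≤ 1 := hes.trans (by norm_num)
  have hK0 := C.K0
  obtain ⟨γ, hγ⟩ : ∃ γ : ℝ, γ = e / 16 := ⟨_, rfl⟩
  obtain ⟨δ, hδ⟩ : ∃ δ : ℝ, δ = e / 6 := ⟨_, rfl⟩
  have hγ0 : 0 < γ := by rw [hγ]; positivity
  have hδ0 : 0 < δ := by rw [hδ]; positivity
  obtain ⟨ε, hε⟩ : ∃ ε : ℝ, ε = e ^ 2 / 72 := ⟨_, rfl⟩
  have hε0 : 0 < ε := by rw [hε]; positivity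
  have hε1 : ε ≤ δ ^ 2 / 2 := by rw [hε, hδ]; exact le_of_eq (by ring)
  have hε2 : ε ≤ γ / 8 := by
    rw [hε, hγ]
    have := mul_le_mul_of_nonneg_left hes he0.le
    linarith
  obtain ⟨n1, hn1⟩ := exists_nat_ge (16 / e + 4 / δ ^ 2 * (K + 1) + 16 / γ + 16)
  refine ⟨max n1 2, fun n hn H hH hK hP hcard => ?_⟩
  have hnN : 2 ≤ n := (le_max_right _ _).trans hn
  have hst := fun m (hm : 0 < m) (hm2 : n ≤ 2 * m) => C.stab n m hm hm2
  rw [← hε] at hst
  have hn1' : 16 / e + 4 / δ ^ 2 * (K + 1) + 16 / γ + 16 ≤ (n : ℝ) :=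
    hn1.trans (by exact_mod_cast (le_max_left _ _).trans hn)
  have hb1 : 16 ≤ e * n := by
    have h1 : 16 / e ≤ (n : ℝ) := by
      have : 0 ≤ 4 / δ ^ 2 * (K + 1) + 16 / γ + 16 := by positivity
      linarith
    rw [div_le_iff₀ he0] at h1
    linarith
  have hb2 : 4 * (K + 1) ≤ δ ^ 2 * n := by
    have h1 : 4 / δ ^ 2 * (K + 1) ≤ (n : ℝ) := by
      have : 0 ≤ 16 / e + 16 / γ + 16 := by positivity
      linarith
    have h2 := mul_le_mul_of_nonneg_left h1 (show (0 : ℝ) ≤ δ ^ 2 by positivity)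
    have h3 : δ ^ 2 * (4 / δ ^ 2 * (K + 1)) = 4 * (K + 1) := by field_simp
    linarith
  have hb3 : 16 ≤ γ * n := by
    have h1 : 16 / γ ≤ (n : ℝ) := by
      have : 0 ≤ 16 / e + 4 / δ ^ 2 * (K + 1) + 16 := by positivity
      linarith
    rw [div_le_iff₀ hγ0] at h1
    linarith
  have hn16 : (16 : ℝ) ≤ n := by
    have : 0 ≤ 16 / e + 4 / δ ^ 2 * (K + 1) + 16 / γ := by positivity
    linarith
  have hn0 : (0 : ℝ) < n := by linarith
  -- either all is well or there is a vertex of small degree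
  have step : ∀ m : ℕ, n ≤ 2 * m → m ≤ n → ∀ H' : Finset (Finset (Fin m)),
      (∀ e ∈ H', e.card = 3) → K43Free H' → P n m H' →
      tnum m ≤ H'.card → (H'.card = tnum m ∧ Q m H') ∨
        ∃ v, ((H'.filter fun e => v ∈ e).card : ℝ) < (5 / 18 - e / 2) * (m : ℝ) ^ 2 := by
    intro m hm hmn H' hH' hK' hP' hc'
    by_cases hlow : ∃ v, ((H'.filter fun e => v ∈ e).card : ℝ) < (5 / 18 - e / 2) * (m : ℝ) ^ 2
    · exact Or.inr hlow
    left
    push Not at hlow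
    have hm' : (n : ℝ) ≤ 2 * m := by exact_mod_cast hm
    obtain ⟨-, g, hg⟩ := hst m (by omega) hm H' hH' hK' hP'
    have hc2 : (tnum m : ℝ) ≤ (H'.card : ℝ) := by exact_mod_cast hc'
    have hl := tnum_low m
    have hm0 : (0 : ℝ) ≤ m := Nat.cast_nonneg m
    have hd1 : 2 * (K + 1) ≤ δ ^ 2 * m := by
      have := mul_le_mul_of_nonneg_left hm' (show (0 : ℝ) ≤ δ ^ 2 by positivity)
      linarith
    have hd2 : 2 * (K + 1) * (m : ℝ) ^ 2 ≤ δ ^ 2 * (m : ℝ) ^ 3 := by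
      have := mul_le_mul_of_nonneg_right hd1 (show (0 : ℝ) ≤ (m : ℝ) ^ 2 by positivity)
      calc 2 * (K + 1) * (m : ℝ) ^ 2 ≤ δ ^ 2 * m * (m : ℝ) ^ 2 := this
        _ = δ ^ 2 * (m : ℝ) ^ 3 := by ring
    have hgap : 5 / 54 * (m : ℝ) ^ 3 - H'.card ≤ (m : ℝ) ^ 2 := by linarith
    have k1 : K * (5 / 54 * (m : ℝ) ^ 3 - H'.card) ≤ K * (m : ℝ) ^ 2 :=
      mul_le_mul_of_nonneg_left hgap hK0
    have k2 : ε * (m : ℝ) ^ 3 ≤ δ ^ 2 / 2 * (m : ℝ) ^ 3 :=
      mul_le_mul_of_nonneg_right hε1 (by positivity)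
    have k3 : 0 ≤ (m : ℝ) ^ 2 := by positivity
    have k4 : 0 ≤ K * (m : ℝ) ^ 2 := by positivity
    have he' : 1 ≤ e * m := by
      have := mul_le_mul_of_nonneg_left hm' he0.le
      linarith
    have h := C.core n m (by omega) hm H' g hH' hK' hP' he' (by rw [← hδ]; linarith) (by rw [← hδ]; linarith)
      hlow
    have heq : H'.card = tnum m := le_antisymm h.1 hc'
    exact ⟨heq, h.2 heq⟩
  -- deletion
  have next : ∀ m : ℕ, n ≤ 2 * (m + 1) → ∀ (H' : Finset (Finset (Fin (m + 1)))) (v : Fin (m + 1))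
      (a : ℝ), ((H'.filter fun e => v ∈ e).card : ℝ) <
        (5 / 18 - e / 2) * ((m + 1 : ℕ) : ℝ) ^ 2 →
      (tnum (m + 1) : ℝ) + a ≤ (H'.card : ℝ) →
      (tnum m : ℝ) + (a + γ * (n : ℝ) ^ 2) ≤ ((del v H').card : ℝ) := by
    intro m hm H' v a hv ha
    have hm' : (n : ℝ) ≤ 2 * ((m : ℝ) + 1) := by exact_mod_cast hm
    have h1 : ((del v H').card : ℝ) + ((H'.filter fun e => v ∈ e).card : ℝ) = (H'.card : ℝ) := by
      exact_mod_cast del_card v H'
    have h2 := tnum_step m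
    push_cast at hv
    have h3 : e / 8 * n ≤ e / 2 * ((m : ℝ) + 1) - 2 := by
      have := mul_le_mul_of_nonneg_left hm' he0.le
      linarith
    have h4 : e / 16 * (n : ℝ) ^ 2 ≤ ((m : ℝ) + 1) * (e / 2 * ((m : ℝ) + 1) - 2) := by
      have e1 : (n : ℝ) / 2 ≤ (m : ℝ) + 1 := by linarith
      have e2 := mul_le_mul e1 h3 (by positivity) (by linarith)
      calc e / 16 * (n : ℝ) ^ 2 = (n : ℝ) / 2 * (e / 8 * n) := by ring
        _ ≤ _ := e2
    rw [hγ]
    have hm0 : (0 : ℝ) ≤ m := Nat.cast_nonneg m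
    linarith
  -- no 3-graph with too many edges
  have no : ∀ m : ℕ, n ≤ 2 * m → m < n → ∀ H' : Finset (Finset (Fin m)),
      (∀ e ∈ H', e.card = 3) → K43Free H' → P n m H' →
      ¬ ((tnum m : ℝ) + γ * ((n : ℝ) - m) * (n : ℝ) ^ 2 ≤ (H'.card : ℝ)) := by
    intro m
    induction m with
    | zero =>
      intro h1 h2
      omega
    | succ m ih =>
      intro h1 h2 H' hH' hK' hP' hcon
      have hmn : ((m + 1 : ℕ) : ℝ) + 1 ≤ n := by exact_mod_cast h2
      have hpos : 0 < γ * ((n : ℝ) - ((m + 1 : ℕ) : ℝ)) * (n : ℝ) ^ 2 := by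
        have : 0 < (n : ℝ) - ((m + 1 : ℕ) : ℝ) := by linarith
        positivity
      by_cases hm : n ≤ 2 * m
      · have hle : tnum (m + 1) ≤ H'.card := by
          have : (tnum (m + 1) : ℝ) ≤ (H'.card : ℝ) := by linarith
          exact_mod_cast this
        rcases step (m + 1) h1 h2.le H' hH' hK' hP' hle with h | ⟨v, hv⟩
        · have : (H'.card : ℝ) = (tnum (m + 1) : ℝ) := by exact_mod_cast h.1
          linarith
        · have h3 := next m h1 H' v _ hv hcon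
          refine ih hm (by omega) (del v H') (del_unif hH') (del_free hK')
            (C.her n m v H' hP') (le_trans (le_of_eq ?_) h3)
          push_cast
          ring
      · obtain ⟨h3, -⟩ := hst (m + 1) (by omega) h1 H' hH' hK' hP'
        have h4 := tnum_low (m + 1)
        have h5 : 2 * m + 1 ≤ n := by omega
        have h6 : 2 * (m : ℝ) + 1 ≤ n := by exact_mod_cast h5
        have hM : ((m + 1 : ℕ) : ℝ) ≤ n := by linarith
        have hM0 : (0 : ℝ) ≤ ((m + 1 : ℕ) : ℝ) := Nat.cast_nonneg _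
        have h7 : (n : ℝ) / 4 ≤ (n : ℝ) - ((m + 1 : ℕ) : ℝ) := by push_cast; linarith
        have h8 : γ * ((n : ℝ) / 4) * (n : ℝ) ^ 2 ≤
            γ * ((n : ℝ) - ((m + 1 : ℕ) : ℝ)) * (n : ℝ) ^ 2 :=
          mul_le_mul_of_nonneg_right (mul_le_mul_of_nonneg_left h7 hγ0.le) (by positivity)
        have h9 : ε * ((m + 1 : ℕ) : ℝ) ^ 3 ≤ γ / 8 * (n : ℝ) ^ 3 :=
          mul_le_mul hε2 (pow_le_pow_left₀ hM0 hM 3) (by positivity) (by positivity)
        have h10 : ((m + 1 : ℕ) : ℝ) ^ 2 ≤ (n : ℝ) ^ 2 := pow_le_pow_left₀ hM0 hM 2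
        have h12 : 16 * (n : ℝ) ^ 2 ≤ γ * n * (n : ℝ) ^ 2 :=
          mul_le_mul_of_nonneg_right hb3 (by positivity)
        have h13 : 0 < (n : ℝ) ^ 2 := by positivity
        linarith
  -- the conclusion
  rcases step n (by omega) le_rfl H hH hK hP hcard with h | ⟨v, hv⟩
  · exact h
  · exfalso
    obtain ⟨m, rfl⟩ : ∃ m, n = m + 1 := ⟨n - 1, by omega⟩
    have hcard' : ((tnum (m + 1) : ℕ) : ℝ) + 0 ≤ (H.card : ℝ) := by
      rw [add_zero]; exact_mod_cast hcard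
    have h3 := next m (by omega) H v 0 hv hcard'
    refine no m (by omega) (by omega) (del v H) (del_unif hH) (del_free hK)
      (C.her _ m v H hP) (le_trans (le_of_eq ?_) h3)
    push_cast
    ring



end Pool.Agent.T2H13.BK
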