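import Pool.Agent.T2H13.BK.Lnk

/-! The link of a vertex with few six-tuples of large weight is near a link of Turán's construction. -/

set_option autoImplicit false
set_option linter.unusedVariables false
set_option linter.unusedSectionVars false
set_option maxHeartbeats 4000000

open Finset
open scoped Classical

namespace Pool.Agent.T2H13.BK
open Pool.Agent.Y439.Loc hiding sum_nonneg' EE
open Pool.Agent.Y903.TX

variable {V : Type} [Fintype V] {c : V → Fin 3} {H : V → V → V → Prop} {n ε : ℝ}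

theorem numB {ε η τ a b : ℝ} (hε0 : 0 < ε) (hε1 : ε ≤ 1 / 1000)
    (h : 2 * (1 / 3 - ε) ^ 4 * (5 / 9 - ε) + a * b * (1 / 3 - ε) ^ 2 ≤
      10 * (1 / 3 + 2 * ε) ^ 6 + 9 * η) (h1 : 10 ^ 4 * ε ≤ τ ^ 4) (h2 : 10 ^ 4 * η ≤ τ ^ 4)
    (hτ : 0 < τ) : a ≤ τ ^ 2 ∨ b ≤ τ ^ 2 := by
  by_contra hcon
  push Not at hcon
  obtain ⟨ha, hb⟩ := hcon
  have hab : τ ^ 4 ≤ a * b := by
    have := mul_le_mul ha.le hb.le (by positivity) (by nlinarith [sq_nonneg τ])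
    calc τ ^ 4 = τ ^ 2 * τ ^ 2 := by ring
      _ ≤ _ := this
  have e1 : 1 / 10 ≤ (1 / 3 - ε) ^ 2 := by nlinarith
  have e2 : 1 / 81 - ε ≤ (1 / 3 - ε) ^ 4 := by
    have f1 : 1 / 9 - ε ≤ (1 / 3 - ε) ^ 2 := by nlinarith
    have f2 : (1 / 9 - ε) ^ 2 ≤ ((1 / 3 - ε) ^ 2) ^ 2 := pow_le_pow_left₀ (by linarith) f1 2
    have f3 : ((1 / 3 - ε) ^ 2) ^ 2 = (1 / 3 - ε) ^ 4 := by ring
    rw [f3] at f2
    nlinarith
  have e3 : (1 / 3 + 2 * ε) ^ 6 ≤ 1 / 729 + ε := by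
    have f1 : (1 / 3 + 2 * ε) ^ 2 ≤ 1 / 9 + 2 * ε := by nlinarith
    have f2 : ((1 / 3 + 2 * ε) ^ 2) ^ 3 ≤ (1 / 9 + 2 * ε) ^ 3 :=
      pow_le_pow_left₀ (by positivity) f1 3
    have f3 : ((1 / 3 + 2 * ε) ^ 2) ^ 3 = (1 / 3 + 2 * ε) ^ 6 := by ring
    rw [f3] at f2
    have f4 : ε ^ 2 ≤ 1 / 1000 * ε := by nlinarith
    have f5 : ε ^ 3 ≤ 1 / 1000 * ε := by nlinarith
    have f6 : (1 / 9 + 2 * ε) ^ 3 = 1 / 729 + 6 / 81 * ε + 12 / 9 * ε ^ 2 + 8 * ε ^ 3 := by ring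
    rw [f6] at f2
    linarith
  have e4 : 2 * (1 / 81 - ε) * (5 / 9 - ε) ≤ 2 * (1 / 3 - ε) ^ 4 * (5 / 9 - ε) :=
    mul_le_mul_of_nonneg_right (by linarith) (by linarith)
  have e5 : a * b * (1 / 10) ≤ a * b * (1 / 3 - ε) ^ 2 :=
    mul_le_mul_of_nonneg_left e1 (by have : 0 < τ ^ 4 := by positivity
                                     linarith)
  have e6 : 10 / 729 - 2 * ε ≤ 2 * (1 / 81 - ε) * (5 / 9 - ε) := by nlinarith
  have : 0 < τ ^ 4 := by positivity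
  linarith

theorem l4 {L a b d e : ℝ} (hL : 0 ≤ L) (ha : L ≤ a) (hb : L ≤ b) (hd : L ≤ d) (he : L ≤ e) :
    L ^ 4 ≤ a * b * (d * e) := by
  have h1 := mul_le_mul ha hb hL (hL.trans ha)
  have h2 := mul_le_mul hd he hL (hL.trans hd)
  have h3 := mul_le_mul h1 h2 (by positivity) ((mul_nonneg hL hL).trans h1)
  calc L ^ 4 = L * L * (L * L) := by ring
    _ ≤ _ := h3

/-- the link is near a link of Turán's construction -/
theorem linkB (A : Near c H n ε) {τ η : ℝ} (hτ0 : 0 < τ) (hτ : τ ≤ 1 / 100)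
    (hε : 10 ^ 4 * ε ≤ τ ^ 4) (hη : 10 ^ 4 * η ≤ τ ^ 4) (v : V)
    (hdeg : (5 / 9 - ε) * n ^ 2 ≤ deg H v) (hB : ((SB c H v).card : ℝ) ≤ η * n ^ 6) :
    ∃ k, wr (Function.update c v k) H v ≤ 180 * τ * n ^ 2 := by
  have hp := A.pos
  have hn2 : (0 : ℝ) < n ^ 2 := by positivity
  have he0 := A.e0
  have hτ4 : τ ^ 4 ≤ τ ^ 2 := pow_le_pow_of_le_one hτ0.le (by linarith) (by norm_num)
  have hε2 : ε ≤ τ ^ 2 := by
    have : ε ≤ 10 ^ 4 * ε := by nlinarith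
    linarith
  have hε3 : ε ≤ 1 / 1000 := by
    have : τ ^ 2 ≤ (1 / 100) ^ 2 := pow_le_pow_left₀ hτ0.le hτ 2
    linarith
  have key : ∀ k, EE c H v k k / n ^ 2 ≤ τ ^ 2 ∨ EE c H v (k + 1) (k + 1) / n ^ 2 ≤ τ ^ 2 := by
    intro k
    refine numB he0 hε3 ?_ hε hη hτ0
    have h := six_ineq (c := c) (H := H) v k
    obtain ⟨L, hL⟩ : ∃ L : ℝ, L = (1 / 3 - ε) * n := ⟨_, rfl⟩
    obtain ⟨U, hU⟩ : ∃ U : ℝ, U = (1 / 3 + 2 * ε) * n := ⟨_, rfl⟩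
    have hL0 : 0 ≤ L := by
      rw [hL]
      have : 0 ≤ 1 / 3 - ε := by linarith
      positivity
    have lo : ∀ j, L ≤ sz c j := fun j => by rw [hL]; exact A.lo j
    have up : ∀ j, sz c j ≤ U := fun j => by rw [hU]; exact A.up j
    have E0 : ∀ i j, 0 ≤ EE c H v i j := fun i j => EE_nonneg v i j
    have a1 := mul_le_mul_of_nonneg_left (l4 hL0 (lo 1) (lo 1) (lo 2) (lo 2)) (E0 0 0)
    have a2 := mul_le_mul_of_nonneg_left (l4 hL0 (lo 0) (lo 0) (lo 2) (lo 2)) (E0 1 1)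
    have a3 := mul_le_mul_of_nonneg_left (l4 hL0 (lo 0) (lo 0) (lo 1) (lo 1)) (E0 2 2)
    have a4 := mul_le_mul_of_nonneg_left (l4 hL0 (lo 0) (lo 1) (lo 2) (lo 2)) (E0 0 1)
    have a5 := mul_le_mul_of_nonneg_left (l4 hL0 (lo 1) (lo 2) (lo 0) (lo 0)) (E0 1 2)
    have a6 := mul_le_mul_of_nonneg_left (l4 hL0 (lo 2) (lo 0) (lo 1) (lo 1)) (E0 2 0)
    have a7 : EE c H v k k * EE c H v (k + 1) (k + 1) * L ^ 2 ≤
        EE c H v k k * EE c H v (k + 1) (k + 1) * sz c (k + 2) ^ 2 :=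
      mul_le_mul_of_nonneg_left (pow_le_pow_left₀ hL0 (lo _) 2) (mul_nonneg (E0 _ _) (E0 _ _))
    have a8 : sz c 0 ^ 2 * sz c 1 ^ 2 * sz c 2 ^ 2 ≤ U ^ 6 := by
      have b0 := pow_le_pow_left₀ (sz_nonneg (c := c) 0) (up 0) 2
      have b1 := pow_le_pow_left₀ (sz_nonneg (c := c) 1) (up 1) 2
      have b2 := pow_le_pow_left₀ (sz_nonneg (c := c) 2) (up 2) 2
      have b3 := mul_le_mul (mul_le_mul b0 b1 (by positivity) (by positivity)) b2 (by positivity)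
        (by positivity)
      calc _ ≤ _ := b3
        _ = U ^ 6 := by ring
    have hd := deg_split A.S v 0
    have hd' : deg H v = EE c H v 0 0 + EE c H v 1 1 + EE c H v 2 2 +
      2 * (EE c H v 0 1 + EE c H v 1 2 + EE c H v 2 0) := hd
    rw [hd'] at hdeg
    have a9 := mul_le_mul_of_nonneg_left hdeg (show 0 ≤ 2 * L ^ 4 by positivity)
    have tot : 2 * L ^ 4 * ((5 / 9 - ε) * n ^ 2) +
        EE c H v k k * EE c H v (k + 1) (k + 1) * L ^ 2 ≤ 10 * U ^ 6 + 9 * (η * n ^ 6) := by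
      nlinarith
    have hn6 : (0 : ℝ) < n ^ 6 := by positivity
    refine le_of_mul_le_mul_right ?_ hn6
    have e1 : (2 * (1 / 3 - ε) ^ 4 * (5 / 9 - ε) + EE c H v k k / n ^ 2 *
        (EE c H v (k + 1) (k + 1) / n ^ 2) * (1 / 3 - ε) ^ 2) * n ^ 6 =
        2 * L ^ 4 * ((5 / 9 - ε) * n ^ 2) +
        EE c H v k k * EE c H v (k + 1) (k + 1) * L ^ 2 := by
      rw [hL]; field_simp
    have e2 : (10 * (1 / 3 + 2 * ε) ^ 6 + 9 * η) * n ^ 6 = 10 * U ^ 6 + 9 * (η * n ^ 6) := by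
      rw [hU]; ring
    rw [e1, e2]
    exact tot
  have h2 : ∃ j : Fin 3, EE c H v (j + 1) (j + 1) / n ^ 2 ≤ τ ^ 2 ∧
      EE c H v (j + 2) (j + 2) / n ^ 2 ≤ τ ^ 2 := by
    have k0 : EE c H v 0 0 / n ^ 2 ≤ τ ^ 2 ∨ EE c H v 1 1 / n ^ 2 ≤ τ ^ 2 := key 0
    have k1 : EE c H v 1 1 / n ^ 2 ≤ τ ^ 2 ∨ EE c H v 2 2 / n ^ 2 ≤ τ ^ 2 := key 1
    have k2 : EE c H v 2 2 / n ^ 2 ≤ τ ^ 2 ∨ EE c H v 0 0 / n ^ 2 ≤ τ ^ 2 := key 2
    by_cases q0 : EE c H v 0 0 / n ^ 2 ≤ τ ^ 2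
    · by_cases q1 : EE c H v 1 1 / n ^ 2 ≤ τ ^ 2
      · exact ⟨2, q0, q1⟩
      · exact ⟨1, (k1.resolve_left q1), q0⟩
    · exact ⟨0, k0.resolve_left q0, k2.resolve_right q0⟩
  obtain ⟨j, hj1, hj2⟩ := h2
  refine ⟨j + 1, close_of A v j ?_⟩
  have b0 := quot_bounds A j
  have b1 := quot_bounds A (j + 1)
  have b2 := quot_bounds A (j + 2)
  have f0 := EE_quot A v j (j + 1)
  have f1 := EE_quot A v (j + 1) (j + 2)
  have f2 := EE_quot A v (j + 2) j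
  exact num54 hτ0 hτ he0.le hε2 b0.1 b0.2 b1.1 b1.2 b2.1 b2.2 f0.1 f1.1 f2.1 f0.2 f1.2 f2.2 hj1 hj2
    (inner_quot A v j) (trans_quot A v j) (deg_quot A v j hdeg)

end Pool.Agent.T2H13.BK
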