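import Pool.Agent.T2H13.BK.Inn

/-! No reversed pairs, and cones over books through a vertex. -/

set_option autoImplicit false
set_option linter.unusedVariables false
set_option linter.unusedSectionVars false
set_option maxHeartbeats 4000000

open Finset
open scoped Classical

namespace Pool.Agent.T2H13.BK
open Pool.Agent.Y439.Loc hiding sum_nonneg' EE
open Pool.Agent.Y903.TX

variable {V : Type} [Fintype V] {c : V → Fin 3} {H : V → V → V → Prop} {n σ : ℝ}

theorem no_rev (A : Vx c H n σ) {t : ℕ} {M : ℝ}
    (hσ : 12 * ((t : ℝ) + 1) ^ 3 * σ ^ 2 ≤ (1 / 5) ^ (t + 1)) (hM0 : 2 * M < (1 / 5) ^ (t + 1))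
    (hM : ∀ x y, x ≠ y → (cop t H x y : ℝ) ≤ M * n ^ (t + 1)) (x y : V) (hxy : c y = c x + 1)
    (h1 : n / 5 ≤ ∑ u, ind (c u = c x ∧ H x y u)) (h2 : n / 5 ≤ ∑ u, ind (c u = c y ∧ H x y u)) :
    False := by
  have hp := A.pos
  have hb := A.big
  have hne : x ≠ y := fun e => fin3_ne1 (c x) (by rw [← hxy, e])
  set W1 : Finset V := univ.filter fun u => c u = c x ∧ H x y u with hW1
  set W2 : Finset V := univ.filter fun u => c u = c y ∧ H x y u with hW2
  have c1 : n / 5 ≤ (W1.card : ℝ) := by rw [hW1, card_ind]; exact h1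
  have c2 : n / 5 ≤ (W2.card : ℝ) := by rw [hW2, card_ind]; exact h2
  let F : Option (Fin t) → Finset V := fun o => Option.elim o W1 fun _ => W2
  have hY : ((Fintype.piFinset F).card : ℝ) = (W1.card : ℝ) * (W2.card : ℝ) ^ t := by
    rw [Fintype.card_piFinset, Fintype.prod_option]
    simp only [F, Option.elim, prod_const, card_univ, Fintype.card_fin]
    push_cast; rfl
  have h3 := clean_card (I := Option (Fin t)) (ε := 2 * σ ^ 2) (vx_nn A) hp (by nlinarith)
    (fun w w' => Df c H x w w' ∨ Df c H y w w') (Df c H) ?_ ?_ (Fintype.piFinset F)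
  · rw [Fintype.card_option, Fintype.card_fin, hY] at h3
    push_cast at h3
    have h4 : (n / 5) ^ (t + 1) ≤ (W1.card : ℝ) * (W2.card : ℝ) ^ t := by
      rw [pow_succ']
      exact mul_le_mul c1 (pow_le_pow_left₀ (by positivity) c2 t) (by positivity)
        (Nat.cast_nonneg _)
    have h5 : ((Fintype.piFinset F).filter
        (Cl2 (fun w w' => Df c H x w w' ∨ Df c H y w w') (Df c H))).card ≤ cop t H x y := by
      refine card_le_card_of_injOn (fun u => ((x, y, u none), fun i => u (some i))) ?_ ?_
      · intro u hu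
        obtain ⟨h5, h6, h7, h8⟩ := mem_filter.mp (mem_coe.mp hu)
        rw [Fintype.mem_piFinset] at h5
        obtain ⟨hw1, hw2⟩ : c (u none) = c x ∧ H x y (u none) := (mem_filter.mp (h5 none)).2
        have hz : ∀ i, c (u (some i)) = c y ∧ H x y (u (some i)) := fun i =>
          (mem_filter.mp (h5 (some i))).2
        refine mem_coe.mpr (mem_filter.mpr ⟨mem_univ _, ?_, Or.inl rfl, Or.inr (Or.inl rfl)⟩)
        have ns : ∀ i, (none : Option (Fin t)) ≠ some i := fun i => by simp
        have ss : ∀ i j : Fin t, i ≠ j → some i ≠ some j := fun i j h e => h (Option.some.inj e)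
        constructor
        · exact hw2
        · exact fun i => (hz i).2
        · exact fun i => isH (fun h => h7 none (some i) (ns i) (Or.inl h))
            (tu_two hw1 (by rw [(hz i).1, hxy]) (A.S.ne13 hw2))
        · intro i
          refine noH (fun h => h7 none (some i) (ns i) (Or.inr h)) fun h => ?_
          exact tu_not (x := u none) (y := y) (z := u (some i)) (by rw [hxy, hw1])
            (by rw [(hz i).1, hxy, hw1]) (FD_s1 h)
        · intro i j hij
          exact noH (fun h => h7 (some i) (some j) (ss i j hij) (Or.inl h))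
            (tu_not (by rw [(hz i).1, hxy]) (by rw [(hz j).1, hxy]))
        · intro i j hij
          exact noH (fun h => h7 (some i) (some j) (ss i j hij) (Or.inr h))
            (tu_mono (hz i).1 (hz j).1)
        · intro i j hij
          exact noH (h8 none (some i) (some j) (ns i) (ns j) (ss i j hij))
            (tu_not (by rw [(hz i).1, hxy, hw1]) (by rw [(hz j).1, hxy, hw1]))
        · intro i j k hij hik hjk
          exact noH (h8 (some i) (some j) (some k) (ss i j hij) (ss i k hik) (ss j k hjk))
            (tu_mono (by rw [(hz i).1, (hz j).1]) (by rw [(hz i).1, (hz k).1]))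
        · intro i j hij
          exact Option.some.inj (h6 hij)
      · intro u _ u' _ h
        have g1 := (Prod.mk.inj (Prod.mk.inj (Prod.mk.inj h).1).2).2
        have g2 := (Prod.mk.inj h).2
        funext o
        rcases o with _ | i
        · exact g1
        · exact congrFun g2 i
    have h6 : ((((Fintype.piFinset F).filter
        (Cl2 (fun w w' => Df c H x w w' ∨ Df c H y w w') (Df c H))).card : ℕ) : ℝ) ≤
        (cop t H x y : ℝ) := by exact_mod_cast h5
    have h7 := hM x y hne
    have h8 : (n / 5) ^ (t + 1) = (1 / 5) ^ (t + 1) * n ^ (t + 1) := by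
      rw [← mul_pow]; congr 1; ring
    have h9 : (0 : ℝ) < n ^ (t + 1) := by positivity
    have h10 : 3 * ((t : ℝ) + 1) ^ 3 * (2 * σ ^ 2 * n ^ (t + 1)) ≤
        (1 / 5) ^ (t + 1) / 2 * n ^ (t + 1) := by
      have e : 3 * ((t : ℝ) + 1) ^ 3 * (2 * σ ^ 2 * n ^ (t + 1)) =
        (6 * ((t : ℝ) + 1) ^ 3 * σ ^ 2) * n ^ (t + 1) := by ring
      rw [e]
      exact mul_le_mul_of_nonneg_right (by linarith) h9.le
    have h11 : M * n ^ (t + 1) < (1 / 5) ^ (t + 1) / 2 * n ^ (t + 1) :=
      mul_lt_mul_of_pos_right (by linarith) h9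
    rw [h8] at h4
    linarith
  · have e1 : ∀ w w', ind (Df c H x w w' ∨ Df c H y w w') ≤
        ind (Df c H x w w') + ind (Df c H y w w') := fun w w' => ind_or fun h => h
    refine (sum_le_sum fun w _ => sum_le_sum fun w' _ => e1 w w').trans ?_
    simp only [sum_add_distrib]
    have := vx_sumDf A x
    have := vx_sumDf A y
    linarith
  · have := vx_WD A
    have h0 : 0 ≤ σ ^ 2 * n ^ 3 := by positivity
    have e : ∑ x, ∑ y, ∑ z, ind (Df c H x y z) = Pool.Agent.Y903.TX.WD c H := rfl
    rw [e]
    linarith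

/-- cones over books through a vertex -/
theorem vertex_books (hs : ∀ x y z, H x y z → x ≠ y) {t : ℕ} {B : ℝ} (v : V)
    (hM : ∀ y, v ≠ y → (cop t H v y : ℝ) ≤ B) (hB : 0 ≤ B) :
    ((BA H t v).card : ℝ) + ((BS H t v).card : ℝ) ≤ 2 * ((Fintype.card V : ℝ) * B) := by
  have a1 : ((BA H t v).card : ℝ) ≤ (Fintype.card V : ℝ) * B := by
    have h1 : (BA H t v).card ≤ ∑ y, if v ≠ y then cop t H v y else 0 := by
      have e : ∀ y, (if v ≠ y then cop t H v y else 0) =
        (if v ≠ y then ((univ : Finset ((V × V × V) × (Fin t → V))).filter fun q =>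
          Bk H q.1.1 q.1.2.1 q.1.2.2 q.2 ∧ In q v ∧ In q y) else ∅).card := by
        intro y
        split_ifs <;> rfl
      rw [sum_congr rfl fun y _ => e y, ← card_sigma]
      refine card_le_card_of_injOn (fun u => (⟨u (Sum.inl 0), ((v, u (Sum.inl 0), u (Sum.inl 1)),
        fun i => u (Sum.inr i))⟩ : (_ : V) × ((V × V × V) × (Fin t → V)))) ?_ ?_
      · intro u hu
        have h := (mem_filter.mp (mem_coe.mp hu)).2
        refine mem_coe.mpr (mem_sigma.mpr ⟨mem_univ _, ?_⟩)
        rw [if_pos (hs _ _ _ h.abd)]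
        exact mem_filter.mpr ⟨mem_univ _, h, Or.inl rfl, Or.inr (Or.inl rfl)⟩
      · intro u _ u' _ h
        have g := congrArg Sigma.snd h
        have g' := eq_of_heq (Sigma.mk.inj h).2
        have g1 := (Prod.mk.inj (Prod.mk.inj (Prod.mk.inj g').1).2).1
        have g2 := (Prod.mk.inj (Prod.mk.inj (Prod.mk.inj g').1).2).2
        have g3 := (Prod.mk.inj g').2
        funext i
        rcases i with i | i
        · fin_cases i
          exacts [g1, g2]
        · exact congrFun g3 i
    have h2 : ((BA H t v).card : ℝ) ≤ ∑ y, ((if v ≠ y then cop t H v y else 0 : ℕ) : ℝ) := by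
      exact_mod_cast h1
    refine h2.trans ?_
    calc _ ≤ ∑ _y : V, B := by
          refine sum_le_sum fun y _ => ?_
          by_cases h : v ≠ y
          · rw [if_pos h]; exact hM y h
          · rw [if_neg h]; simpa using hB
      _ = _ := by rw [sum_const, card_univ, nsmul_eq_mul]
  have a2 : ((BS H t v).card : ℝ) ≤ (Fintype.card V : ℝ) * B := by
    have h1 : (BS H t v).card ≤ ∑ y, if v ≠ y then cop t H v y else 0 := by
      have e : ∀ y, (if v ≠ y then cop t H v y else 0) =
        (if v ≠ y then ((univ : Finset ((V × V × V) × (Fin t → V))).filter fun q =>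
          Bk H q.1.1 q.1.2.1 q.1.2.2 q.2 ∧ In q v ∧ In q y) else ∅).card := by
        intro y
        split_ifs <;> rfl
      rw [sum_congr rfl fun y _ => e y, ← card_sigma]
      refine card_le_card_of_injOn (fun u => (⟨u (Sum.inl 0), ((u (Sum.inl 0), v, u (Sum.inl 1)),
        fun i => u (Sum.inr i))⟩ : (_ : V) × ((V × V × V) × (Fin t → V)))) ?_ ?_
      · intro u hu
        have h := (mem_filter.mp (mem_coe.mp hu)).2
        refine mem_coe.mpr (mem_sigma.mpr ⟨mem_univ _, ?_⟩)
        rw [if_pos (hs _ _ _ h.abd).symm]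
        exact mem_filter.mpr ⟨mem_univ _, h, Or.inr (Or.inl rfl), Or.inl rfl⟩
      · intro u _ u' _ h
        have g' := eq_of_heq (Sigma.mk.inj h).2
        have g1 := (Prod.mk.inj (Prod.mk.inj g').1).1
        have g2 := (Prod.mk.inj (Prod.mk.inj (Prod.mk.inj g').1).2).2
        have g3 := (Prod.mk.inj g').2
        funext i
        rcases i with i | i
        · fin_cases i
          exacts [g1, g2]
        · exact congrFun g3 i
    have h2 : ((BS H t v).card : ℝ) ≤ ∑ y, ((if v ≠ y then cop t H v y else 0 : ℕ) : ℝ) := by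
      exact_mod_cast h1
    refine h2.trans ?_
    calc _ ≤ ∑ _y : V, B := by
          refine sum_le_sum fun y _ => ?_
          by_cases h : v ≠ y
          · rw [if_pos h]; exact hM y h
          · rw [if_neg h]; simpa using hB
      _ = _ := by rw [sum_const, card_univ, nsmul_eq_mul]
  linarith

end Pool.Agent.T2H13.BK
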