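import Pool.Agent.T2H13.BK.Blo
import Pool.Agent.T2H13.BK.Lnk2
import Pool.Agent.T2H13.BK.Rev
import Pool.Agent.T2H13.BK.ExE
import Pool.Agent.R573.CL.Loc

/-! Turán's number for 3-graphs with few cones over a book at every pair: all vertices behave well. -/

set_option autoImplicit false
set_option linter.unusedVariables false
set_option linter.unusedSectionVars false
set_option maxRecDepth 100000
set_option maxHeartbeats 4000000

open Finset
open scoped Classical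

namespace Pool.Agent.T2H13.BK
open Pool.Agent.Y439.Loc hiding sum_nonneg' EE
open Pool.Agent.TH773
open Pool.Agent.TH773.Turan34 (K43Free turan)
open Pool.Agent.Y439
open Pool.Agent.Y903.TX
open Pool.Agent.R105.TP

/-- the assumptions on the links from the distance -/
theorem near_ofE {n : ℕ} {H : Finset (Finset (Fin n))} {δ e : ℝ} (hH : ∀ e ∈ H, e.card = 3)
    (hK : Turan34.K43Free H)
    (g : Fin n → Fin 3) (hn : 0 < n) (hδ0 : 0 < δ) (hδ : δ ≤ e / 6) (he0 : 0 < e) (he1 : e ≤ 1)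
    (h1 : ((symmDiff H (Turan34.turan g)).card : ℝ) ≤ δ ^ 2 * (n : ℝ) ^ 3)
    (h2 : (5 / 54 - δ ^ 2) * (n : ℝ) ^ 3 ≤ (H.card : ℝ)) : Near g (Loc.Rel H) (n : ℝ) e := by
  have hn0 : (0 : ℝ) < n := by exact_mod_cast hn
  have hsum : ∑ _x : Fin n, (1 : ℝ) = (n : ℝ) := by simp
  rw [turan_tgraph] at h1
  have hD3 : ∀ e ∈ symmDiff H (tgraph g), e.card = 3 := by
    intro e he
    rw [mem_symmDiff] at he
    rcases he with he | he
    · exact hH e he.1
    · have := he.1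
      unfold tgraph at this
      exact (mem_filter.mp this).2.1
  have hWD : WD g (Loc.Rel H) = 6 * ((symmDiff H (tgraph g)).card : ℝ) := by
    rw [WD_wr]
    have e1 : ∀ v, wr g (Loc.Rel H) v = ∑ y, ∑ z, ind (Loc.Rel (symmDiff H (tgraph g)) v y z) := by
      intro v
      rw [wr_count g H hH v, vertex_count _ hD3 v]
    rw [sum_congr rfl fun v _ => e1 v]
    exact total_count _ hD3
  have hδ2 : 6 * δ ^ 2 ≤ e := by
    have : δ ^ 2 ≤ δ := by
      have : δ ≤ 1 := by linarith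
      nlinarith
    linarith
  refine ⟨rel_sys g H hK, hsum, hn0, he0, ?_, fun k => ?_⟩
  · rw [hWD]
    have : 6 * (δ ^ 2 * (n : ℝ) ^ 3) ≤ e * (n : ℝ) ^ 3 := by
      rw [← mul_assoc]
      exact mul_le_mul_of_nonneg_right hδ2 (by positivity)
    linarith
  · have ht : tot (Tu g) = 6 * ((tgraph g).card : ℝ) := by
      rw [← total_count (tgraph g) (fun e he => by
        unfold tgraph at he; exact (mem_filter.mp he).2.1)]
      unfold tot
      exact sum_congr rfl fun x _ => sum_congr rfl fun y _ => sum_congr rfl fun z _ =>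
        ind_congr (rel_tgraph g x y z).symm
    have h3 : (H.card : ℝ) ≤ ((tgraph g).card : ℝ) + ((symmDiff H (tgraph g)).card : ℝ) := by
      have : H.card ≤ (tgraph g).card + (symmDiff H (tgraph g)).card := by
        have hsub : H ⊆ tgraph g ∪ symmDiff H (tgraph g) := by
          intro e he
          rw [mem_union, mem_symmDiff]
          by_cases h : e ∈ tgraph g
          · exact Or.inl h
          · exact Or.inr (Or.inl ⟨he, h⟩)
        exact (card_le_card hsub).trans (card_union_le _ _)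
      exact_mod_cast this
    have h4 := sizes (c := g) hsum hn0 hδ0.le (by
      rw [ht]
      nlinarith) k
    have h5 : 6 * δ ≤ e := by linarith
    have h6 : 6 * δ * n ≤ e * n := mul_le_mul_of_nonneg_right h5 hn0.le
    nlinarith

theorem vx_mono {V : Type} [Fintype V] {c : V → Fin 3} {H : V → V → V → Prop} {n σ σ' : ℝ}
    (A : Vx c H n σ) (h0 : 0 ≤ σ) (h : σ ≤ σ') : Vx c H n σ' := by
  have hp := A.pos
  have h2 : σ ^ 2 ≤ σ' ^ 2 := pow_le_pow_left₀ h0 h 2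
  refine ⟨A.S, A.hn, A.pos, fun v => (A.hw v).trans
    (mul_le_mul_of_nonneg_right h2 (by positivity)), fun k => le_trans
      (mul_le_mul_of_nonneg_right (by linarith) hp.le) (A.lo k), A.big.trans
        (mul_le_mul_of_nonneg_right h2 hp.le)⟩

/-- the constants -/
structure Par (t : ℕ) (σ τ η ε κ e m : ℝ) : Prop where
  σ0 : 0 < σ
  σs : σ ≤ sig0
  σ1 : 18 * (t : ℝ) ^ 3 * σ ^ 2 ≤ (1 / 20) ^ t
  σ2 : 12 * ((t : ℝ) + 1) ^ 3 * σ ^ 2 ≤ (1 / 5) ^ (t + 1)
  τ0 : 0 < τ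
  τ1 : τ ≤ 1 / 100
  τσ : 180 * τ + 40 * e ≤ σ ^ 2
  e0 : 0 < e
  e1 : e ≤ 1 / 10 ^ 30
  eτ : 10 ^ 4 * e ≤ τ ^ 4
  eε : e ≤ ε
  ητ : 10 ^ 4 * η ≤ τ ^ 4
  m0 : 0 < m
  m1 : 12000 * m ≤ (1 / 20) ^ t
  m2 : 2 * m < (1 / 5) ^ (t + 1)
  m3 : 2 * m ≤ κ
  sb : ∀ (V : Type) [Fintype V] (c : V → Fin 3) (H : V → V → V → Prop) (n : ℝ) (v : V),
      Sys c H → (Fintype.card V : ℝ) = n → 0 < n → 1 ≤ ε * n → WD c H ≤ ε * n ^ 3 →
      (((BA H t v).card : ℝ) + ((BS H t v).card : ℝ)) ≤ κ * n ^ (t + 2) →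
      ((SB c H v).card : ℝ) ≤ η * n ^ 6

theorem params (t : ℕ) : ∃ σ τ η ε κ e m0 : ℝ, Par t σ τ η ε κ e m0 ∧
    ∀ m, 0 < m → m ≤ m0 → Par t σ τ η ε κ e m := by
  obtain ⟨q, hq⟩ : ∃ q : ℝ, q = (1 / 20) ^ (t + 1) := ⟨_, rfl⟩
  have hq0 : 0 < q := by rw [hq]; positivity
  have hq1 : q ≤ (1 / 20) ^ t := by
    rw [hq]
    exact pow_le_pow_of_le_one (by norm_num) (by norm_num) (Nat.le_succ t)
  have hq2 : q ≤ (1 / 5) ^ (t + 1) := by
    rw [hq]
    exact pow_le_pow_left₀ (by norm_num) (by norm_num) _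
  have hq3 : q ≤ 1 := hq1.trans (pow_le_one₀ (by norm_num) (by norm_num))
  obtain ⟨D, hD⟩ : ∃ D : ℝ, D = 18 * ((t : ℝ) + 1) ^ 3 := ⟨_, rfl⟩
  have ht0 : (0 : ℝ) ≤ t := Nat.cast_nonneg t
  have hD1 : 1 ≤ D := by
    have : (1 : ℝ) ≤ ((t : ℝ) + 1) ^ 3 := one_le_pow₀ (by linarith)
    rw [hD]; linarith
  have hs0 := sig0_pos
  have hs1 : sig0 ≤ 1 := by unfold sig0; norm_num
  obtain ⟨σ, hσ⟩ : ∃ σ : ℝ, σ = sig0 * (q / D) := ⟨_, rfl⟩
  have hσ0 : 0 < σ := by rw [hσ]; positivity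
  have hqD : q / D ≤ 1 := by
    rw [div_le_one (by linarith)]
    linarith
  have hσs : σ ≤ sig0 := by
    rw [hσ]
    exact mul_le_of_le_one_right hs0.le hqD
  have hσq : σ ^ 2 ≤ q / D := by
    have h1 : σ ≤ q / D := by
      rw [hσ]
      exact mul_le_of_le_one_left (by positivity) hs1
    have h2 : σ ≤ 1 := hσs.trans hs1
    nlinarith
  have hDσ : D * σ ^ 2 ≤ q := by
    have := mul_le_mul_of_nonneg_left hσq (show 0 ≤ D by linarith)
    rwa [mul_div_cancel₀ _ (by positivity : D ≠ 0)] at this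
  obtain ⟨τ, hτ⟩ : ∃ τ : ℝ, τ = σ ^ 2 / 1000 := ⟨_, rfl⟩
  have hτ0 : 0 < τ := by rw [hτ]; positivity
  have hσ1 : σ ^ 2 ≤ 1 := pow_le_one₀ hσ0.le (hσs.trans hs1)
  obtain ⟨η, hη⟩ : ∃ η : ℝ, η = τ ^ 4 / 10 ^ 4 := ⟨_, rfl⟩
  have hη0 : 0 < η := by rw [hη]; positivity
  obtain ⟨ε, κ, hε0, hκ0, hsb⟩ := SB_small t hη0
  obtain ⟨e, he⟩ : ∃ e : ℝ, e = min (min (1 / 10 ^ 30) (τ ^ 4 / 10 ^ 4)) (min ε (σ ^ 2 / 80)) :=
    ⟨_, rfl⟩
  have he0 : 0 < e := by
    rw [he]
    exact lt_min (lt_min (by positivity) (by positivity)) (lt_min hε0 (by positivity))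
  have he1 : e ≤ 1 / 10 ^ 30 := by rw [he]; exact (min_le_left _ _).trans (min_le_left _ _)
  have he2 : e ≤ τ ^ 4 / 10 ^ 4 := by rw [he]; exact (min_le_left _ _).trans (min_le_right _ _)
  have he3 : e ≤ ε := by rw [he]; exact (min_le_right _ _).trans (min_le_left _ _)
  have he4 : e ≤ σ ^ 2 / 80 := by rw [he]; exact (min_le_right _ _).trans (min_le_right _ _)
  obtain ⟨m0, hm0⟩ : ∃ m0 : ℝ, m0 = min (q / 12000) (κ / 2) := ⟨_, rfl⟩
  have hm00 : 0 < m0 := by rw [hm0]; exact lt_min (by positivity) (by positivity)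
  have hm1 : m0 ≤ q / 12000 := by rw [hm0]; exact min_le_left _ _
  have hm2 : m0 ≤ κ / 2 := by rw [hm0]; exact min_le_right _ _
  have key : ∀ m, 0 < m → m ≤ m0 → Par t σ τ η ε κ e m := by
    intro m hmp hm
    refine ⟨hσ0, hσs, ?_, ?_, hτ0, ?_, ?_, he0, he1, ?_, he3, ?_, hmp, ?_, ?_, ?_, hsb⟩
    · refine le_trans (mul_le_mul_of_nonneg_right ?_ (by positivity)) (hDσ.trans hq1)
      rw [hD]
      have : (t : ℝ) ^ 3 ≤ ((t : ℝ) + 1) ^ 3 := pow_le_pow_left₀ ht0 (by linarith) 3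
      linarith
    · refine le_trans (mul_le_mul_of_nonneg_right ?_ (by positivity)) (hDσ.trans hq2)
      rw [hD]
      have : (0 : ℝ) ≤ ((t : ℝ) + 1) ^ 3 := by positivity
      linarith
    · rw [hτ]; linarith
    · rw [hτ]; linarith
    · linarith
    · rw [hη]; linarith
    · linarith
    · linarith
    · linarith
  exact ⟨σ, τ, η, ε, κ, e, m0, key m0 hm00 le_rfl, key⟩

section
variable {n t : ℕ} {H : Finset (Finset (Fin n))} {σ τ η ε κ e m : ℝ}

/-- the main step: large minimum degree -/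
theorem core_bk (P : Par t σ τ η ε κ e m) (hn : 0 < n) (hH : ∀ e ∈ H, e.card = 3)
    (hK : K43Free H) (g : Fin n → Fin 3)
    (hM : ∀ x y, x ≠ y → (cop t (Loc.Rel H) x y : ℝ) ≤ m * (n : ℝ) ^ (t + 1))
    (h1n : 1 ≤ e * n)
    (h1 : ((symmDiff H (turan g)).card : ℝ) ≤ (e / 6) ^ 2 * (n : ℝ) ^ 3)
    (h2 : (5 / 54 - (e / 6) ^ 2) * (n : ℝ) ^ 3 ≤ (H.card : ℝ))
    (hdeg : ∀ v, (5 / 18 - e / 2) * (n : ℝ) ^ 2 ≤ ((H.filter fun e => v ∈ e).card : ℝ)) :
    H.card ≤ tnum n ∧ (H.card = tnum n → TurG n H) := by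
  have hn' : (0 : ℝ) < n := by exact_mod_cast hn
  have he0 := P.e0
  have he1 : e ≤ 1 := P.e1.trans (by norm_num)
  have A := near_ofE hH hK g hn (show 0 < e / 6 by positivity) le_rfl he0 he1 h1 h2
  have hnn : (Fintype.card (Fin n) : ℝ) = n := by rw [Fintype.card_fin]
  have hd : ∀ v, (5 / 9 - e) * (n : ℝ) ^ 2 ≤ deg (Loc.Rel H) v := by
    intro v
    rw [deg_card hH v]
    have := hdeg v
    linarith
  have hsb : ∀ v, ((SB g (Loc.Rel H) v).card : ℝ) ≤ η * (n : ℝ) ^ 6 := by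
    intro v
    refine P.sb (Fin n) g (Loc.Rel H) n v A.S hnn hn' ?_ ?_ ?_
    · exact h1n.trans (mul_le_mul_of_nonneg_right P.eε hn'.le)
    · exact A.hD.trans (mul_le_mul_of_nonneg_right P.eε (by positivity))
    · have hv := vertex_books (H := Loc.Rel H) A.S.ne (t := t)
        (B := m * (n : ℝ) ^ (t + 1)) v (fun y hy => hM v y hy)
        (mul_nonneg P.m0.le (by positivity))
      rw [hnn] at hv
      refine hv.trans ?_
      calc 2 * ((n : ℝ) * (m * (n : ℝ) ^ (t + 1))) = 2 * m * (n : ℝ) ^ (t + 2) := by ring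
        _ ≤ _ := mul_le_mul_of_nonneg_right P.m3 (by positivity)
  have hl := fun v => linkB A P.τ0 P.τ1 P.eτ P.ητ v (hd v) (hsb v)
  have hs10 : sig0 ≤ 1 / 10 := by unfold sig0; norm_num
  obtain ⟨c, Aσ⟩ := exists_vx A (P.e1.trans (by norm_num)) h1n P.σ0 (P.σs.trans hs10) P.τσ P.τ0 hl
  have A0 := vx_mono Aσ P.σ0.le P.σs
  have hσ2 : σ ^ 2 ≤ 1 / 100000 := by
    have h3 : σ ^ 2 ≤ sig0 ^ 2 := pow_le_pow_left₀ P.σ0.le P.σs 2
    refine h3.trans ?_
    unfold sig0; norm_num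
  have hio := io_le Aσ P.σ0 hσ2 (P.σs.trans (by unfold sig0; norm_num)) P.σ1 P.m1 hM
  have h := near_apply A0 (n / 3) (n % 3) (n_div n) (by omega) hio
  rw [total_count H hH, ← tnum_TT n] at h
  refine ⟨?_, fun heq => ?_⟩
  · have h1 : (H.card : ℝ) ≤ (tnum n : ℝ) := by linarith [h.1]
    exact_mod_cast h1
  · have h1 : 6 * (H.card : ℝ) = 6 * (tnum n : ℝ) := by rw [heq]
    obtain ⟨rev, hrel⟩ := h.2 h1
    have hT := Pool.Agent.R573.CL.uniq2 A0 hrel fun x y hxy _ g1 g2 =>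
      no_rev Aσ P.σ2 P.m2 hM x y hxy g1 g2
    refine ⟨c, ?_⟩
    ext e
    constructor
    · intro he
      obtain ⟨x, y, z, n1, n2, n3, rfl⟩ := card_eq_three.1 (hH e he)
      exact ((rel_tgraph c x y z).2 ((hT x y z).1 ⟨n1, n3, n2, he⟩)).2.2.2
    · intro he
      have h3 : e.card = 3 := by
        unfold tgraph at he
        exact (mem_filter.mp he).2.1
      obtain ⟨x, y, z, n1, n2, n3, rfl⟩ := card_eq_three.1 h3
      exact ((hT x y z).2 ((rel_tgraph c x y z).1 ⟨n1, n3, n2, he⟩)).2.2.2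

end

section
variable {t : ℕ}

theorem rel_del {m : ℕ} (v : Fin (m + 1)) (H : Finset (Finset (Fin (m + 1)))) (x y z : Fin m) :
    Loc.Rel (del v H) x y z ↔ Loc.Rel H (v.succAbove x) (v.succAbove y) (v.succAbove z) := by
  unfold Loc.Rel
  rw [mem_del, Fin.succAbove_right_injective.ne_iff, Fin.succAbove_right_injective.ne_iff,
    Fin.succAbove_right_injective.ne_iff]
  simp only [map_insert, map_singleton, Fin.coe_succAboveEmb]

theorem bk_del {m : ℕ} (v : Fin (m + 1)) (H : Finset (Finset (Fin (m + 1)))) {a b d : Fin m}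
    {p : Fin t → Fin m} (h : Bk (Loc.Rel (del v H)) a b d p) :
    Bk (Loc.Rel H) (v.succAbove a) (v.succAbove b) (v.succAbove d) fun i => v.succAbove (p i) := by
  constructor
  · exact (rel_del v H _ _ _).1 h.abd
  · exact fun i => (rel_del v H _ _ _).1 (h.abp i)
  · exact fun i => (rel_del v H _ _ _).1 (h.adp i)
  · exact fun i hi => h.bdp i ((rel_del v H _ _ _).2 hi)
  · exact fun i j hij hi => h.app i j hij ((rel_del v H _ _ _).2 hi)
  · exact fun i j hij hi => h.bpp i j hij ((rel_del v H _ _ _).2 hi)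
  · exact fun i j hij hi => h.dpp i j hij ((rel_del v H _ _ _).2 hi)
  · exact fun i j k hij hik hjk hi => h.ppp i j k hij hik hjk ((rel_del v H _ _ _).2 hi)
  · exact fun i j hij => h.inj (Fin.succAbove_right_injective hij)

/-- deleting a vertex -/
theorem cop_del {m : ℕ} (v : Fin (m + 1)) (H : Finset (Finset (Fin (m + 1)))) (x y : Fin m) :
    cop t (Loc.Rel (del v H)) x y ≤ cop t (Loc.Rel H) (v.succAbove x) (v.succAbove y) := by
  unfold cop
  refine card_le_card_of_injOn (fun q => ((v.succAbove q.1.1, v.succAbove q.1.2.1,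
    v.succAbove q.1.2.2), fun i => v.succAbove (q.2 i))) ?_ ?_
  · intro q hq
    obtain ⟨-, h1, h2, h3⟩ := mem_filter.1 (mem_coe.1 hq)
    refine mem_coe.2 (mem_filter.2 ⟨mem_univ _, bk_del v H h1, ?_, ?_⟩)
    · rcases h2 with h2 | h2 | h2 | ⟨i, h2⟩
      · exact Or.inl (congrArg _ h2)
      · exact Or.inr (Or.inl (congrArg _ h2))
      · exact Or.inr (Or.inr (Or.inl (congrArg _ h2)))
      · exact Or.inr (Or.inr (Or.inr ⟨i, congrArg _ h2⟩))
    · rcases h3 with h2 | h2 | h2 | ⟨i, h2⟩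
      · exact Or.inl (congrArg _ h2)
      · exact Or.inr (Or.inl (congrArg _ h2))
      · exact Or.inr (Or.inr (Or.inl (congrArg _ h2)))
      · exact Or.inr (Or.inr (Or.inr ⟨i, congrArg _ h2⟩))
  · intro q _ q' _ h
    have h1 := congrArg (fun r => r.1.1) h
    have h2 := congrArg (fun r => r.1.2.1) h
    have h3 := congrArg (fun r => r.1.2.2) h
    have h4 := congrArg (fun r => r.2) h
    dsimp only at h1 h2 h3 h4
    refine Prod.ext (Prod.ext (Fin.succAbove_right_injective h1)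
      (Prod.ext (Fin.succAbove_right_injective h2) (Fin.succAbove_right_injective h3))) ?_
    funext i
    exact Fin.succAbove_right_injective (congrFun h4 i)

end

end Pool.Agent.T2H13.BK
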