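import Pool.Agent.T2H13.BK.Cln

/-! Six-tuples with a pattern of large weight in the link of a vertex are few. -/

set_option autoImplicit false
set_option linter.unusedVariables false
set_option linter.unusedSectionVars false
set_option maxHeartbeats 4000000

open Finset
open scoped Classical

namespace Pool.Agent.T2H13.BK
open Pool.Agent.Y439.Loc hiding sum_nonneg'
open Pool.Agent.Y903.TX
open Pool.Agent.Y47.BU (pull coll Bl bl_card ramsey)

variable {V : Type} [Fintype V] {c : V → Fin 3} {H : V → V → V → Prop}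

/-- the pattern of a six-tuple in the link of `v` -/
noncomputable def pat (H : V → V → V → Prop) (v : V) (w : Fin 6 → V) (s s' : Fin 6) : Bool :=
  decide (H v (w s) (w s'))

/-- six-tuples with the pattern `P` -/
noncomputable def SP (c : V → Fin 3) (H : V → V → V → Prop) (v : V) (P : Fin 6 → Fin 6 → Bool) :
    Finset (Fin 6 → V) :=
  univ.filter fun w => (∀ s, c (w s) = cls s) ∧ pat H v w = P

/-- six-tuples with a pattern of large weight -/
noncomputable def SB (c : V → Fin 3) (H : V → V → V → Prop) (v : V) : Finset (Fin 6 → V) :=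
  univ.filter fun w => (∀ s, c (w s) = cls s) ∧ 10 < valP (pat H v w)

/-- the blow-ups, as functions on the product -/
noncomputable def YY {T : ℕ} (S : Finset (Fin 6 → V)) : Finset (Fin 6 × Fin T → V) :=
  univ.filter fun z => ∀ f : Fin 6 → Fin T, (fun s => z (s, f s)) ∈ S

theorem YY_card {T : ℕ} (S : Finset (Fin 6 → V)) : (Bl 6 T S).card ≤ (YY (T := T) S).card := by
  refine card_le_card_of_injOn (fun y p => y p.1 p.2) ?_ ?_
  · intro y hy
    exact mem_coe.mpr (mem_filter.mpr ⟨mem_univ _, (mem_filter.mp (mem_coe.mp hy)).2⟩)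
  · intro y _ y' _ h
    funext s a
    exact congrFun h (s, a)

theorem valP_congr {P M : Fin 6 → Fin 6 → Bool} (h : ∀ s s', s ≠ s' → M s s' = P s s') :
    valP M = valP P := by
  unfold valP
  rw [h 0 1 (by decide), h 2 3 (by decide), h 4 5 (by decide), h 0 2 (by decide),
    h 0 3 (by decide), h 1 2 (by decide), h 1 3 (by decide), h 2 4 (by decide),
    h 2 5 (by decide), h 3 4 (by decide), h 3 5 (by decide), h 4 0 (by decide),
    h 4 1 (by decide), h 5 0 (by decide), h 5 1 (by decide)]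

/-- a clean blow-up of a pattern of large weight contains a cone over a book with `v` -/
theorem clean_ext (S : Sys c H) {v : V} {t T : ℕ}
    (hR : ∀ (A : Finset (Fin T)), T ≤ A.card → ∀ col : Fin T → Fin T → Bool,
      ∃ (B : Finset (Fin T)) (k : Bool), B ⊆ A ∧ B.card = t + 3 ∧
        ∀ a ∈ B, ∀ b ∈ B, a < b → col a b = k)
    {P : Fin 6 → Fin 6 → Bool} (hP : 10 < valP P) {z : Fin 6 × Fin T → V}
    (hz : z ∈ YY (T := T) (SP c H v P)) (hc : Cl2 (fun _ _ => False) (Df c H) z) :
    ∃ e : Fin 2 ⊕ Fin t → Fin 6 × Fin T, Function.Injective e ∧ z ∘ e ∈ BA H t v ∪ BS H t v := by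
  obtain ⟨hinj, -, hD⟩ := hc
  have hY := (mem_filter.mp hz).2
  have h1 : ∀ s : Fin 6, ∃ (B : Finset (Fin T)) (k : Bool), B.card = t + 3 ∧
      ∀ a ∈ B, ∀ b ∈ B, a < b → decide (H v (z (s, a)) (z (s, b))) = k := by
    intro s
    obtain ⟨B, k, -, hB, hk⟩ := hR univ (by rw [card_univ, Fintype.card_fin])
      (fun a b => decide (H v (z (s, a)) (z (s, b))))
    exact ⟨B, k, hB, hk⟩
  choose B τ hB hτ using h1
  let q : Fin 6 → Fin (t + 3) → Fin T := fun s => (B s).orderEmbOfFin (hB s)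
  have hq : ∀ s, Function.Injective (q s) := fun s => ((B s).orderEmbOfFin (hB s)).injective
  have hqB : ∀ s i, q s i ∈ B s := fun s i => orderEmbOfFin_mem _ _ _
  let M : Fin 6 → Fin 6 → Bool := fun s s' => if s = s' then τ s else P s s'
  have hM : ∀ s s', s ≠ s' → M s s' = P s s' := fun s s' h => if_neg h
  have hM' : ∀ s, M s s = τ s := fun s => if_pos rfl
  have hsel : ∀ s s' (a a' : Fin T), s ≠ s' →
      (H v (z (s, a)) (z (s', a')) ↔ P s s' = true) := by
    intro s s' a a' hne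
    have h2 := (mem_filter.mp (hY fun r => if r = s then a else a')).2.2
    have h3 := congrFun (congrFun h2 s) s'
    unfold pat at h3
    beta_reduce at h3
    rw [if_pos rfl, if_neg hne.symm] at h3
    rw [← h3, decide_eq_true_iff]
  have hcl : ∀ s a, c (z (s, a)) = cls s := fun s a =>
    (mem_filter.mp (hY fun _ => a)).2.1 s
  have hh : Hom c H v (t + 3) (fun s i => z (s, q s i)) M := by
    constructor
    · intro s s' i j hij
      by_cases hs : s = s'
      · subst hs
        rw [hM']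
        rcases lt_or_gt_of_ne hij with h | h
        · have := hτ s (q s i) (hqB s i) (q s j) (hqB s j)
            (((B s).orderEmbOfFin (hB s)).strictMono h)
          rw [← this, decide_eq_true_iff]
        · have := hτ s (q s j) (hqB s j) (q s i) (hqB s i)
            (((B s).orderEmbOfFin (hB s)).strictMono h)
          rw [← this, decide_eq_true_iff]
          exact ⟨S.s2 _ _ _, S.s2 _ _ _⟩
      · rw [hM s s' hs]
        exact hsel s s' _ _ hs
    · intro s i; exact hcl s _
    · intro s s' s'' i j k hij hik hjk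
      have key : ∀ (r r' : Fin 6) (a b : Fin (t + 3)), a ≠ b → (r, q r a) ≠ (r', q r' b) := by
        intro r r' a b hab e
        have e1 := (Prod.mk.inj e).1
        subst e1
        exact hab (hq r (Prod.mk.inj e).2)
      exact hD _ _ _ (key _ _ _ _ hij) (key _ _ _ _ hik) (key _ _ _ _ hjk)
    · intro s s' i j h
      have h2 := hinj h
      have e1 := (Prod.mk.inj h2).1
      subst e1
      exact hq s (Prod.mk.inj h2).2
  obtain ⟨s0, s1, sp, h2⟩ := hh.ext S (by rw [valP_congr hM]; exact hP)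
  refine ⟨fun i => ((pos t s0 s1 sp i).1, q (pos t s0 s1 sp i).1 (pos t s0 s1 sp i).2), ?_, h2⟩
  intro i j hij
  have e1 := (Prod.mk.inj hij).1
  have e2 := (Prod.mk.inj hij).2
  rw [e1] at e2
  exact pos_inj t s0 s1 sp (Prod.ext e1 (hq _ e2))

/-- six-tuples with a given pattern of large weight -/
theorem SP_small (t : ℕ) {η : ℝ} (hη : 0 < η) : ∃ ε κ : ℝ, 0 < ε ∧ 0 < κ ∧
    ∀ (V : Type) [Fintype V] (c : V → Fin 3) (H : V → V → V → Prop) (n : ℝ) (v : V)
      (P : Fin 6 → Fin 6 → Bool),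
      Sys c H → (Fintype.card V : ℝ) = n → 0 < n → 1 ≤ ε * n → WD c H ≤ ε * n ^ 3 →
      (((BA H t v).card : ℝ) + ((BS H t v).card : ℝ)) ≤ κ * n ^ (t + 2) → 10 < valP P →
      ((SP c H v P).card : ℝ) ≤ η * n ^ 6 := by
  obtain ⟨T, hT, hram⟩ := ramsey Bool (t + 3)
  have hT0 : 0 < T := by omega
  obtain ⟨θ, hθ⟩ : ∃ θ : ℝ, θ = η ^ (T ^ 6) := ⟨_, rfl⟩
  have hθ0 : 0 < θ := by rw [hθ]; positivity
  obtain ⟨m, hm⟩ : ∃ m : ℕ, m = Fintype.card (Fin 6 × Fin T) := ⟨_, rfl⟩
  have hm6 : m = 6 * T := by rw [hm, Fintype.card_prod, Fintype.card_fin, Fintype.card_fin]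
  obtain ⟨E, hE⟩ : ∃ E : ℝ, E = (Fintype.card (Fin 2 ⊕ Fin t → Fin 6 × Fin T) : ℝ) := ⟨_, rfl⟩
  have hE0 : 0 ≤ E := by rw [hE]; exact Nat.cast_nonneg _
  refine ⟨θ / (4 * (3 * (m : ℝ) ^ 3 + 1)), θ / (4 * (E + 1)), by positivity, by positivity, ?_⟩
  intro V _ c H n v P S hn hp h1 hW hB hP
  obtain ⟨ε, hε⟩ : ∃ ε : ℝ, ε = θ / (4 * (3 * (m : ℝ) ^ 3 + 1)) := ⟨_, rfl⟩
  obtain ⟨κ, hκ⟩ : ∃ κ : ℝ, κ = θ / (4 * (E + 1)) := ⟨_, rfl⟩
  rw [← hε] at h1 hW
  rw [← hκ] at hB
  by_contra hcon
  push Not at hcon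
  have hnm : 0 < n ^ m := by positivity
  -- many blow-ups
  have a1 : θ * n ^ m ≤ ((YY (T := T) (SP c H v P)).card : ℝ) := by
    have b1 := bl_card (V := V) hn hp hT0 6 (SP c H v P)
    have b2 : ((Bl 6 T (SP c H v P)).card : ℝ) ≤ ((YY (T := T) (SP c H v P)).card : ℝ) := by
      exact_mod_cast YY_card (T := T) (SP c H v P)
    have b3 : η ≤ ((SP c H v P).card : ℝ) / n ^ 6 := by
      rw [le_div_iff₀ (by positivity)]; exact hcon.le
    have b4 : η ^ (T ^ 6) ≤ (((SP c H v P).card : ℝ) / n ^ 6) ^ (T ^ 6) :=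
      pow_le_pow_left₀ hη.le b3 _
    have b5 : n ^ (6 * T) * η ^ (T ^ 6) ≤
        n ^ (6 * T) * (((SP c H v P).card : ℝ) / n ^ 6) ^ (T ^ 6) :=
      mul_le_mul_of_nonneg_left b4 (by positivity)
    calc θ * n ^ m = n ^ (6 * T) * η ^ (T ^ 6) := by rw [hθ, hm6]; ring
      _ ≤ _ := b5.trans (b1.trans b2)
  -- most are clean
  have a2 := clean_card (I := Fin 6 × Fin T) hn hp h1 (fun _ _ => False) (Df c H)
    (by simp only [ind_f not_false, sum_const_zero]
        have : 0 < ε := by rw [hε]; positivity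
        positivity) hW (YY (T := T) (SP c H v P))
  rw [← hm] at a2
  -- the clean ones
  have a3 : ((((YY (T := T) (SP c H v P)).filter (Cl2 (fun _ _ => False) (Df c H))).card : ℕ) : ℝ)
      ≤ E * (κ * n ^ m) := by
    let W : (Fin 2 ⊕ Fin t → Fin 6 × Fin T) → Finset (Fin 6 × Fin T → V) := fun e =>
      if Function.Injective e then univ.filter fun z => z ∘ e ∈ BA H t v ∪ BS H t v else ∅
    have b1 : (YY (T := T) (SP c H v P)).filter (Cl2 (fun _ _ => False) (Df c H)) ⊆
        univ.biUnion W := by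
      intro z hz
      obtain ⟨hz1, hz2⟩ := mem_filter.mp hz
      obtain ⟨e, he, hze⟩ := clean_ext S (fun A hA col => hram (Fin T) A hA col) hP hz1 hz2
      refine mem_biUnion.mpr ⟨e, mem_univ _, ?_⟩
      simp only [W]
      rw [if_pos he]
      exact mem_filter.mpr ⟨mem_univ _, hze⟩
    have b2 : ∀ e, ((W e).card : ℝ) ≤ κ * n ^ m := by
      intro e
      have hκ0 : 0 ≤ κ := by rw [hκ]; positivity
      by_cases he : Function.Injective e
      · simp only [W]
        rw [if_pos he]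
        have d1 := pull (V := V) e he (univ.filter fun z => z ∘ e ∈ BA H t v ∪ BS H t v)
          (BA H t v ∪ BS H t v) (fun w hw => (mem_filter.mp hw).2)
        have hcc := Fintype.card_le_of_injective _ he
        have d2 : Fintype.card (Fin 2 ⊕ Fin t) = t + 2 := by
          rw [Fintype.card_sum, Fintype.card_fin, Fintype.card_fin, add_comm]
        rw [← hm, d2] at d1 hcc
        have d3 : (((univ.filter fun z => z ∘ e ∈ BA H t v ∪ BS H t v).card : ℕ) : ℝ) ≤
            ((BA H t v ∪ BS H t v).card : ℝ) * n ^ (m - (t + 2)) := by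
          rw [← hn]; exact_mod_cast d1
        have d4 : ((BA H t v ∪ BS H t v).card : ℝ) ≤ κ * n ^ (t + 2) := by
          refine le_trans ?_ hB
          exact_mod_cast card_union_le _ _
        calc _ ≤ _ := d3
          _ ≤ (κ * n ^ (t + 2)) * n ^ (m - (t + 2)) :=
            mul_le_mul_of_nonneg_right d4 (by positivity)
          _ = κ * n ^ m := by
            rw [mul_assoc, ← pow_add]
            congr 2
            omega
      · simp only [W]
        rw [if_neg he, card_empty, Nat.cast_zero]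
        positivity
    have b3 : (((univ.biUnion W).card : ℕ) : ℝ) ≤ ∑ e, ((W e).card : ℝ) := by
      exact_mod_cast card_biUnion_le
    refine ((Nat.cast_le.mpr (card_le_card b1)).trans (b3.trans (sum_le_sum fun e _ => b2 e))).trans
      (le_of_eq ?_)
    rw [sum_const, card_univ, nsmul_eq_mul, hE]
  have a4 : E * (κ * n ^ m) ≤ θ / 4 * n ^ m := by
    have : E * κ ≤ θ / 4 := by
      rw [hκ, mul_div_assoc', div_le_div_iff₀ (by positivity) (by norm_num)]
      nlinarith
    calc E * (κ * n ^ m) = E * κ * n ^ m := by ring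
      _ ≤ _ := mul_le_mul_of_nonneg_right this hnm.le
  have a5 : 3 * (m : ℝ) ^ 3 * (ε * n ^ m) ≤ θ / 4 * n ^ m := by
    have hm0 : 0 ≤ (m : ℝ) ^ 3 := by positivity
    have : 3 * (m : ℝ) ^ 3 * ε ≤ θ / 4 := by
      rw [hε, mul_div_assoc', div_le_div_iff₀ (by positivity) (by norm_num)]
      nlinarith
    calc 3 * (m : ℝ) ^ 3 * (ε * n ^ m) = 3 * (m : ℝ) ^ 3 * ε * n ^ m := by ring
      _ ≤ _ := mul_le_mul_of_nonneg_right this hnm.le
  have a6 : 0 < θ * n ^ m := by positivity
  linarith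

theorem exists_fiber (Q : Type) [Fintype Q] [Nonempty Q] : ∃ N : ℝ, 0 < N ∧
    ∀ (W : Type) (f : W → Q) (A : Finset W) (b : ℝ),
      (∀ (q : Q) (B : Finset W), (∀ w ∈ B, w ∈ A ∧ f w = q) → (B.card : ℝ) ≤ b) →
        (A.card : ℝ) ≤ N * b := by
  refine ⟨Fintype.card Q, by exact_mod_cast Fintype.card_pos, fun W f A b h => ?_⟩
  rw [card_eq_sum_card_fiberwise (f := f) (t := univ) fun x _ => mem_coe.mpr (mem_univ _)]
  push_cast
  refine (sum_le_sum fun q _ => h q _ fun w hw => mem_filter.mp hw).trans (le_of_eq ?_)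
  rw [sum_const, card_univ, nsmul_eq_mul]

/-- six-tuples with a pattern of large weight -/
theorem SB_small (t : ℕ) {η : ℝ} (hη : 0 < η) : ∃ ε κ : ℝ, 0 < ε ∧ 0 < κ ∧
    ∀ (V : Type) [Fintype V] (c : V → Fin 3) (H : V → V → V → Prop) (n : ℝ) (v : V),
      Sys c H → (Fintype.card V : ℝ) = n → 0 < n → 1 ≤ ε * n → WD c H ≤ ε * n ^ 3 →
      (((BA H t v).card : ℝ) + ((BS H t v).card : ℝ)) ≤ κ * n ^ (t + 2) →
      ((SB c H v).card : ℝ) ≤ η * n ^ 6 := by
  obtain ⟨N, hN, hfib⟩ := exists_fiber (Fin 6 → Fin 6 → Bool)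
  obtain ⟨ε, κ, hε, hκ, h⟩ := SP_small t (show 0 < η / N by positivity)
  refine ⟨ε, κ, hε, hκ, fun V _ c H n v S hn hp h1 hW hB => ?_⟩
  have h2 := hfib (Fin 6 → V) (pat H v) (SB c H v) (η / N * n ^ 6) (fun P B hBw => ?_)
  · refine h2.trans (le_of_eq ?_)
    field_simp
  · by_cases hP : 10 < valP P
    · refine le_trans (Nat.cast_le.mpr (card_le_card ?_)) (h V c H n v P S hn hp h1 hW hB hP)
      intro w hw
      obtain ⟨h3, h4⟩ := hBw w hw
      exact mem_filter.mpr ⟨mem_univ _, (mem_filter.mp h3).2.1, h4⟩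
    · have : B = ∅ := by
        refine eq_empty_of_forall_notMem fun w hw => ?_
        obtain ⟨h3, h4⟩ := hBw w hw
        have h6 := (mem_filter.mp h3).2.2
        rw [h4] at h6
        exact hP h6
      rw [this, card_empty, Nat.cast_zero]
      positivity

end Pool.Agent.T2H13.BK
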