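import Pool.Agent.T2H13.BK.Ext

/-! Counting tuples without coincidences and without bad pairs and triples. -/

set_option autoImplicit false
set_option linter.unusedVariables false
set_option linter.unusedSectionVars false
set_option maxHeartbeats 4000000

open Finset
open scoped Classical

namespace Pool.Agent.T2H13.BK
open Pool.Agent.Y439.Loc hiding sum_nonneg'
open Pool.Agent.Y903.TX
open Pool.Agent.Y47.BU (pull coll Bl bl_card ramsey)

variable {V : Type} [Fintype V]

/-- no coincidences, no bad pairs and no bad triples -/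
def Cl2 {I : Type} (R2 : V → V → Prop) (R3 : V → V → V → Prop) (y : I → V) : Prop :=
  Function.Injective y ∧ (∀ i j, i ≠ j → ¬ R2 (y i) (y j)) ∧
    ∀ i j k, i ≠ j → i ≠ k → j ≠ k → ¬ R3 (y i) (y j) (y k)

theorem card_R2 (R2 : V → V → Prop) :
    ((univ.filter fun u : Fin 2 → V => R2 (u 0) (u 1)).card : ℝ) ≤ ∑ x, ∑ y, ind (R2 x y) := by
  have h1 : (univ.filter fun u : Fin 2 → V => R2 (u 0) (u 1)).card ≤
      ((univ : Finset (V × V)).filter fun q => R2 q.1 q.2).card := by
    refine card_le_card_of_injOn (fun u => (u 0, u 1)) ?_ ?_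
    · intro u hu
      exact mem_coe.mpr (mem_filter.mpr ⟨mem_univ _, (mem_filter.mp (mem_coe.mp hu)).2⟩)
    · intro u _ u' _ h
      have h0 := (Prod.mk.inj h).1
      have h1 := (Prod.mk.inj h).2
      funext k
      fin_cases k
      exacts [h0, h1]
  refine (Nat.cast_le.mpr h1).trans (le_of_eq ?_)
  rw [card_filter]
  push_cast
  rw [Fintype.sum_prod_type]
  rfl

theorem card_R3 (R3 : V → V → V → Prop) :
    ((univ.filter fun u : Fin 3 → V => R3 (u 0) (u 1) (u 2)).card : ℝ) ≤
      ∑ x, ∑ y, ∑ z, ind (R3 x y z) := by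
  have h1 : (univ.filter fun u : Fin 3 → V => R3 (u 0) (u 1) (u 2)).card ≤
      ((univ : Finset (V × V × V)).filter fun q => R3 q.1 q.2.1 q.2.2).card := by
    refine card_le_card_of_injOn (fun u => (u 0, u 1, u 2)) ?_ ?_
    · intro u hu
      exact mem_coe.mpr (mem_filter.mpr ⟨mem_univ _, (mem_filter.mp (mem_coe.mp hu)).2⟩)
    · intro u _ u' _ h
      have h0 := (Prod.mk.inj h).1
      have h1 := (Prod.mk.inj (Prod.mk.inj h).2).1
      have h2 := (Prod.mk.inj (Prod.mk.inj h).2).2
      funext k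
      fin_cases k
      exacts [h0, h1, h2]
  refine (Nat.cast_le.mpr h1).trans (le_of_eq ?_)
  rw [card_filter]
  push_cast
  rw [Fintype.sum_prod_type]
  refine sum_congr rfl fun x _ => ?_
  rw [Fintype.sum_prod_type]
  rfl

section
variable {I : Type} [Fintype I] {n ε : ℝ}

theorem one_coll (hn : (Fintype.card V : ℝ) = n) (hp : 0 < n) (h1 : 1 ≤ ε * n) (i j : I)
    (hij : i ≠ j) : ((univ.filter fun y : I → V => y i = y j).card : ℝ) ≤
      ε * n ^ Fintype.card I := by
  have h2 := coll (V := V) i j hij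
  have h3 : ((univ.filter fun y : I → V => y i = y j).card : ℝ) ≤
      n ^ (Fintype.card I - 1) := by
    rw [← hn]; exact_mod_cast h2
  have h4 : 0 < Fintype.card I := Fintype.card_pos_iff.mpr ⟨i⟩
  have h5 : n ^ Fintype.card I = n * n ^ (Fintype.card I - 1) := by
    rw [← pow_succ']
    congr 1
    omega
  rw [h5]
  have h6 : 0 ≤ n ^ (Fintype.card I - 1) := by positivity
  nlinarith

theorem one_R2 (hn : (Fintype.card V : ℝ) = n) (hp : 0 < n) (R2 : V → V → Prop)
    (h2 : ∑ x, ∑ y, ind (R2 x y) ≤ ε * n ^ 2) (i j : I) (hij : i ≠ j) :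
    ((univ.filter fun y : I → V => R2 (y i) (y j)).card : ℝ) ≤ ε * n ^ Fintype.card I := by
  have he : Function.Injective ![i, j] := by
    intro a b hab
    fin_cases a <;> fin_cases b
    · rfl
    · exact absurd hab hij
    · exact absurd hab hij.symm
    · rfl
  have h3 := pull (V := V) ![i, j] he (univ.filter fun y : I → V => R2 (y i) (y j))
    (univ.filter fun u : Fin 2 → V => R2 (u 0) (u 1)) (fun w hw =>
      mem_filter.mpr ⟨mem_univ _, (mem_filter.mp hw).2⟩)
  have hc := Fintype.card_le_of_injective _ he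
  rw [Fintype.card_fin] at hc h3
  have h4 : ((univ.filter fun y : I → V => R2 (y i) (y j)).card : ℝ) ≤
      ((univ.filter fun u : Fin 2 → V => R2 (u 0) (u 1)).card : ℝ) *
        n ^ (Fintype.card I - 2) := by
    rw [← hn]; exact_mod_cast h3
  have h5 := (card_R2 R2).trans h2
  have h6 : 0 ≤ n ^ (Fintype.card I - 2) := by positivity
  calc _ ≤ _ := h4
    _ ≤ (ε * n ^ 2) * n ^ (Fintype.card I - 2) := mul_le_mul_of_nonneg_right h5 h6
    _ = ε * n ^ Fintype.card I := by
      rw [mul_assoc, ← pow_add]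
      congr 2
      omega

theorem one_R3 (hn : (Fintype.card V : ℝ) = n) (hp : 0 < n) (R3 : V → V → V → Prop)
    (h2 : ∑ x, ∑ y, ∑ z, ind (R3 x y z) ≤ ε * n ^ 3) (i j k : I) (hij : i ≠ j) (hik : i ≠ k)
    (hjk : j ≠ k) :
    ((univ.filter fun y : I → V => R3 (y i) (y j) (y k)).card : ℝ) ≤
      ε * n ^ Fintype.card I := by
  have he : Function.Injective ![i, j, k] := by
    intro a b hab
    fin_cases a <;> fin_cases b
    · rfl
    · exact absurd hab hij
    · exact absurd hab hik
    · exact absurd hab hij.symm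
    · rfl
    · exact absurd hab hjk
    · exact absurd hab hik.symm
    · exact absurd hab hjk.symm
    · rfl
  have h3 := pull (V := V) ![i, j, k] he (univ.filter fun y : I → V => R3 (y i) (y j) (y k))
    (univ.filter fun u : Fin 3 → V => R3 (u 0) (u 1) (u 2)) (fun w hw =>
      mem_filter.mpr ⟨mem_univ _, (mem_filter.mp hw).2⟩)
  have hc := Fintype.card_le_of_injective _ he
  rw [Fintype.card_fin] at hc h3
  have h4 : ((univ.filter fun y : I → V => R3 (y i) (y j) (y k)).card : ℝ) ≤
      ((univ.filter fun u : Fin 3 → V => R3 (u 0) (u 1) (u 2)).card : ℝ) *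
        n ^ (Fintype.card I - 3) := by
    rw [← hn]; exact_mod_cast h3
  have h5 := (card_R3 R3).trans h2
  have h6 : 0 ≤ n ^ (Fintype.card I - 3) := by positivity
  calc _ ≤ _ := h4
    _ ≤ (ε * n ^ 3) * n ^ (Fintype.card I - 3) := mul_le_mul_of_nonneg_right h5 h6
    _ = ε * n ^ Fintype.card I := by
      rw [mul_assoc, ← pow_add]
      congr 2
      omega

/-- most tuples are clean -/
theorem clean_card (hn : (Fintype.card V : ℝ) = n) (hp : 0 < n) (h1 : 1 ≤ ε * n)
    (R2 : V → V → Prop) (R3 : V → V → V → Prop) (h2 : ∑ x, ∑ y, ind (R2 x y) ≤ ε * n ^ 2)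
    (h3 : ∑ x, ∑ y, ∑ z, ind (R3 x y z) ≤ ε * n ^ 3) (Y : Finset (I → V)) :
    (Y.card : ℝ) ≤ ((Y.filter (Cl2 R2 R3)).card : ℝ) +
      3 * (Fintype.card I : ℝ) ^ 3 * (ε * n ^ Fintype.card I) := by
  have hε : 0 ≤ ε * n ^ Fintype.card I := by
    have : 0 < ε := by
      by_contra hcon
      push Not at hcon
      nlinarith
    positivity
  set B : ℝ := ε * n ^ Fintype.card I with hB
  let A1 : I × I → Finset (I → V) := fun p =>
    if p.1 ≠ p.2 then univ.filter fun y : I → V => y p.1 = y p.2 else ∅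
  let A2 : I × I → Finset (I → V) := fun p =>
    if p.1 ≠ p.2 then univ.filter fun y : I → V => R2 (y p.1) (y p.2) else ∅
  let A3 : I × I × I → Finset (I → V) := fun p =>
    if p.1 ≠ p.2.1 ∧ p.1 ≠ p.2.2 ∧ p.2.1 ≠ p.2.2 then
      univ.filter fun y : I → V => R3 (y p.1) (y p.2.1) (y p.2.2) else ∅
  have c1 : ∀ p, ((A1 p).card : ℝ) ≤ B := by
    intro p
    by_cases h : p.1 ≠ p.2
    · simp only [A1, if_pos h]
      exact one_coll hn hp h1 _ _ h
    · simp only [A1, if_neg h]
      simpa using hε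
  have c2 : ∀ p, ((A2 p).card : ℝ) ≤ B := by
    intro p
    by_cases h : p.1 ≠ p.2
    · simp only [A2, if_pos h]
      exact one_R2 hn hp R2 h2 _ _ h
    · simp only [A2, if_neg h]
      simpa using hε
  have c3 : ∀ p, ((A3 p).card : ℝ) ≤ B := by
    intro p
    by_cases h : p.1 ≠ p.2.1 ∧ p.1 ≠ p.2.2 ∧ p.2.1 ≠ p.2.2
    · simp only [A3, if_pos h]
      exact one_R3 hn hp R3 h3 _ _ _ h.1 h.2.1 h.2.2
    · simp only [A3, if_neg h]
      simpa using hε
  have hsub : Y ⊆ Y.filter (Cl2 R2 R3) ∪ (univ.biUnion A1 ∪ (univ.biUnion A2 ∪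
      univ.biUnion A3)) := by
    intro y hy
    by_contra hno
    simp only [mem_union, mem_filter, mem_biUnion, mem_univ, true_and, not_or, not_exists,
      not_and] at hno
    obtain ⟨n0, n1, n2, n3⟩ := hno
    refine n0 hy ⟨?_, ?_, ?_⟩
    · intro i j hij
      by_contra hne
      refine n1 (i, j) ?_
      simp only [A1]
      rw [if_pos hne]
      exact mem_filter.mpr ⟨mem_univ _, hij⟩
    · intro i j hne hR
      refine n2 (i, j) ?_
      simp only [A2]
      rw [if_pos hne]
      exact mem_filter.mpr ⟨mem_univ _, hR⟩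
    · intro i j k a b d hR
      refine n3 (i, j, k) ?_
      simp only [A3]
      rw [if_pos ⟨a, b, d⟩]
      exact mem_filter.mpr ⟨mem_univ _, hR⟩
  have hc := (card_le_card hsub).trans ((card_union_le _ _).trans (Nat.add_le_add_left
    ((card_union_le _ _).trans (Nat.add_le_add_left (card_union_le _ _) _)) _))
  have hc' : (Y.card : ℝ) ≤ ((Y.filter (Cl2 R2 R3)).card : ℝ) + (((univ.biUnion A1).card : ℝ) +
      (((univ.biUnion A2).card : ℝ) + ((univ.biUnion A3).card : ℝ))) := by exact_mod_cast hc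
  set m : ℝ := (Fintype.card I : ℝ) with hm
  have d1 : ((univ.biUnion A1).card : ℝ) ≤ m ^ 2 * B := by
    have : ((univ.biUnion A1).card : ℝ) ≤ ∑ p, ((A1 p).card : ℝ) := by
      exact_mod_cast card_biUnion_le
    refine this.trans ((sum_le_sum fun p _ => c1 p).trans (le_of_eq ?_))
    rw [sum_const, card_univ, Fintype.card_prod, nsmul_eq_mul]
    push_cast; ring
  have d2 : ((univ.biUnion A2).card : ℝ) ≤ m ^ 2 * B := by
    have : ((univ.biUnion A2).card : ℝ) ≤ ∑ p, ((A2 p).card : ℝ) := by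
      exact_mod_cast card_biUnion_le
    refine this.trans ((sum_le_sum fun p _ => c2 p).trans (le_of_eq ?_))
    rw [sum_const, card_univ, Fintype.card_prod, nsmul_eq_mul]
    push_cast; ring
  have d3 : ((univ.biUnion A3).card : ℝ) ≤ m ^ 3 * B := by
    have : ((univ.biUnion A3).card : ℝ) ≤ ∑ p, ((A3 p).card : ℝ) := by
      exact_mod_cast card_biUnion_le
    refine this.trans ((sum_le_sum fun p _ => c3 p).trans (le_of_eq ?_))
    rw [sum_const, card_univ, Fintype.card_prod, Fintype.card_prod, nsmul_eq_mul]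
    push_cast; ring
  have e1 : m ^ 2 * B ≤ m ^ 3 * B := by
    refine mul_le_mul_of_nonneg_right ?_ hε
    have h0 : m ^ 2 ≤ m ^ 3 := by
      rcases Nat.eq_zero_or_pos (Fintype.card I) with h | h
      · rw [hm, h]; norm_num
      · have : (1 : ℝ) ≤ m := by rw [hm]; exact_mod_cast h
        exact pow_le_pow_right₀ this (by norm_num)
    exact h0
  linarith

end
end Pool.Agent.T2H13.BK
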