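import Pool.Agent.T2H13.BK.Fin6

/-! Patterns on six vertices of the link of a vertex which appear in blow-ups. -/

set_option autoImplicit false
set_option maxHeartbeats 4000000

namespace Pool.Agent.T2H13.BK

/-- the classes of the six vertices -/
def cls : Fin 6 → Fin 3 := ![0, 0, 1, 1, 2, 2]

/-- the weight of a pattern -/
def valP (P : Fin 6 → Fin 6 → Bool) : ℕ :=
  2 * ((P 0 1).toNat + (P 2 3).toNat + (P 4 5).toNat) +
    ((P 0 2).toNat + (P 0 3).toNat + (P 1 2).toNat + (P 1 3).toNat + (P 2 4).toNat +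
      (P 2 5).toNat + (P 3 4).toNat + (P 3 5).toNat + (P 4 0).toNat + (P 4 1).toNat +
      (P 5 0).toNat + (P 5 1).toNat) +
    (decide (2 ≤ (P 0 1).toNat + (P 2 3).toNat + (P 4 5).toNat)).toNat

theorem b3 {a b c : Bool} (h : a = true → b = true → c = true → False) :
    a.toNat + b.toNat + c.toNat ≤ 2 := by
  cases a <;> cases b <;> cases c <;> simp_all

theorem b2 {a b : Bool} (h : a = true → b = true → False) : a.toNat + b.toNat ≤ 1 := by
  cases a <;> cases b <;> simp_all

theorem bq {i p p' d : Bool} (h1 : i = true → p = true → p' = true → False)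
    (h2 : i = true → p = true → p' = false → d = false → False) :
    i.toNat + p.toNat ≤ 1 + d.toNat := by
  cases i <;> cases p <;> cases p' <;> cases d <;> simp_all

theorem bs {i d e : Bool} (h : i = true → d = true → e = false → False) :
    i.toNat + d.toNat ≤ 1 + e.toNat := by
  cases i <;> cases d <;> cases e <;> simp_all

theorem bu {i g g' d : Bool} (h : i = true → g = true → g' = true → d = false → False) :
    i.toNat + g.toNat + g'.toNat ≤ 2 + d.toNat := by
  cases i <;> cases g <;> cases g' <;> cases d <;> simp_all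

/-- the conditions for a pattern with types of the vertices -/
structure Okp (P : Fin 6 → Fin 6 → Bool) (τ : Fin 6 → Bool) : Prop where
  hs : ∀ s s', s ≠ s' → P s s' = P s' s
  hT : ∀ s0 s1 s2, cls s1 = cls s0 + 1 → cls s2 = cls s0 + 2 → P s0 s1 = true → P s1 s2 = true →
    P s2 s0 = true → False
  hP : ∀ s s' q, s ≠ s' → cls s' = cls s → cls q = cls s + 1 → P s s' = true → P s q = true →
    P s' q = true → False
  hQ : ∀ s s' q, s ≠ s' → cls s' = cls s → cls q = cls s + 1 → P s s' = true → P s q = true →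
    P s' q = false → τ q = false → False
  hR : ∀ s q, cls q = cls s + 1 → τ s = true → P s q = true → False
  hS : ∀ s s', s ≠ s' → cls s' = cls s → P s s' = true → τ s = true → τ s' = false → False
  hU : ∀ r s s', s ≠ s' → cls s' = cls s → cls s = cls r + 1 → P s s' = true → P r s = true →
    P r s' = true → τ s = false → False

theorem valP_le {P : Fin 6 → Fin 6 → Bool} {τ : Fin 6 → Bool} (h : Okp P τ) : valP P ≤ 10 := by
  have c : ∀ b : Bool, b.toNat ≤ 1 := Bool.toNat_le
  have h01 := h.hs 0 1 (by decide)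
  have h23 := h.hs 2 3 (by decide)
  have h45 := h.hs 4 5 (by decide)
  have T : ∀ s0 s1 s2, cls s1 = cls s0 + 1 → cls s2 = cls s0 + 2 →
      (P s0 s1).toNat + (P s1 s2).toNat + (P s2 s0).toNat ≤ 2 := fun s0 s1 s2 a b =>
    b3 (h.hT s0 s1 s2 a b)
  have PP : ∀ s s' q, s ≠ s' → cls s' = cls s → cls q = cls s + 1 →
      (P s s').toNat + (P s q).toNat + (P s' q).toNat ≤ 2 := fun s s' q a b d =>
    b3 (h.hP s s' q a b d)
  have Q : ∀ s s' q, s ≠ s' → cls s' = cls s → cls q = cls s + 1 →
      (P s s').toNat + (P s q).toNat ≤ 1 + (τ q).toNat := fun s s' q a b d =>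
    bq (h.hP s s' q a b d) (h.hQ s s' q a b d)
  have R : ∀ s q, cls q = cls s + 1 → (τ s).toNat + (P s q).toNat ≤ 1 := fun s q a =>
    b2 (h.hR s q a)
  have SS : ∀ s s', s ≠ s' → cls s' = cls s → (P s s').toNat + (τ s).toNat ≤ 1 + (τ s').toNat :=
    fun s s' a b => bs (h.hS s s' a b)
  have U : ∀ r s s', s ≠ s' → cls s' = cls s → cls s = cls r + 1 →
      (P s s').toNat + (P r s).toNat + (P r s').toNat ≤ 2 + (τ s).toNat := fun r s s' a b d =>
    bu (h.hU r s s' a b d)
  have q2 := Q 1 0 2 (by decide) (by decide) (by decide)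
  have q4 := Q 1 0 3 (by decide) (by decide) (by decide)
  have q6 := Q 3 2 4 (by decide) (by decide) (by decide)
  have q8 := Q 3 2 5 (by decide) (by decide) (by decide)
  have q10 := Q 5 4 0 (by decide) (by decide) (by decide)
  have q12 := Q 5 4 1 (by decide) (by decide) (by decide)
  have s2 := SS 1 0 (by decide) (by decide)
  have s4 := SS 3 2 (by decide) (by decide)
  have s6 := SS 5 4 (by decide) (by decide)
  rw [← h01] at q2 q4 s2
  rw [← h23] at q6 q8 s4
  rw [← h45] at q10 q12 s6
  refine fin6_nat (P 0 1).toNat (P 2 3).toNat (P 4 5).toNat (P 0 2).toNat (P 0 3).toNat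
    (P 1 2).toNat (P 1 3).toNat (P 2 4).toNat (P 2 5).toNat (P 3 4).toNat (P 3 5).toNat
    (P 4 0).toNat (P 4 1).toNat (P 5 0).toNat (P 5 1).toNat (τ 0).toNat (τ 1).toNat (τ 2).toNat
    (τ 3).toNat (τ 4).toNat (τ 5).toNat
    (decide (2 ≤ (P 0 1).toNat + (P 2 3).toNat + (P 4 5).toNat)).toNat
    (c _) (c _) (c _) (c _) (c _) (c _) (c _) (c _) (c _) (c _) ?_
    (T 0 2 4 (by decide) (by decide)) (T 0 2 5 (by decide) (by decide))
    (T 0 3 4 (by decide) (by decide)) (T 0 3 5 (by decide) (by decide))
    (T 1 2 4 (by decide) (by decide)) (T 1 2 5 (by decide) (by decide))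
    (T 1 3 4 (by decide) (by decide)) (T 1 3 5 (by decide) (by decide))
    (PP 0 1 2 (by decide) (by decide) (by decide)) (PP 0 1 3 (by decide) (by decide) (by decide))
    (PP 2 3 4 (by decide) (by decide) (by decide)) (PP 2 3 5 (by decide) (by decide) (by decide))
    (PP 4 5 0 (by decide) (by decide) (by decide)) (PP 4 5 1 (by decide) (by decide) (by decide))
    (Q 0 1 2 (by decide) (by decide) (by decide)) q2
    (Q 0 1 3 (by decide) (by decide) (by decide)) q4
    (Q 2 3 4 (by decide) (by decide) (by decide)) q6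
    (Q 2 3 5 (by decide) (by decide) (by decide)) q8
    (Q 4 5 0 (by decide) (by decide) (by decide)) q10
    (Q 4 5 1 (by decide) (by decide) (by decide)) q12
    (R 0 2 (by decide)) (R 0 3 (by decide)) (R 1 2 (by decide)) (R 1 3 (by decide))
    (R 2 4 (by decide)) (R 2 5 (by decide)) (R 3 4 (by decide)) (R 3 5 (by decide))
    (R 4 0 (by decide)) (R 4 1 (by decide)) (R 5 0 (by decide)) (R 5 1 (by decide))
    (SS 0 1 (by decide) (by decide)) s2 (SS 2 3 (by decide) (by decide)) s4
    (SS 4 5 (by decide) (by decide)) s6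
    (U 4 0 1 (by decide) (by decide) (by decide)) (U 5 0 1 (by decide) (by decide) (by decide))
    (U 0 2 3 (by decide) (by decide) (by decide)) (U 1 2 3 (by decide) (by decide) (by decide))
    (U 2 4 5 (by decide) (by decide) (by decide)) (U 3 4 5 (by decide) (by decide) (by decide))
  intro hw
  by_contra hcon
  rw [decide_eq_false hcon] at hw
  exact absurd hw (by decide)

end Pool.Agent.T2H13.BK
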