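import Pool.Agent.Y903.TX.Core
import Pool.Agent.Y47.BU.Cnt
import Pool.Agent.Y47.BU.Ram
import Pool.Agent.Y47.BU.Neg
import Pool.Agent.T2H13.BK.Pat

/-! Cones over books in blow-ups of patterns in the link of a vertex. -/

set_option autoImplicit false
set_option linter.unusedVariables false
set_option linter.unusedSectionVars false
set_option maxHeartbeats 4000000

open Finset
open scoped Classical

namespace Pool.Agent.T2H13.BK
open Pool.Agent.Y439.Loc hiding sum_nonneg'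
open Pool.Agent.Y903.TX

variable {V : Type} [Fintype V] {c : V → Fin 3} {H : V → V → V → Prop}

/-- the vertices `a` (apex), `b`, `d` (spine) and the pages `p` form a cone over a book -/
structure Bk {V : Type} {t : ℕ} (H : V → V → V → Prop) (a b d : V) (p : Fin t → V) : Prop where
  abd : H a b d
  abp : ∀ i, H a b (p i)
  adp : ∀ i, H a d (p i)
  bdp : ∀ i, ¬ H b d (p i)
  app : ∀ i j, i ≠ j → ¬ H a (p i) (p j)
  bpp : ∀ i j, i ≠ j → ¬ H b (p i) (p j)
  dpp : ∀ i j, i ≠ j → ¬ H d (p i) (p j)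
  ppp : ∀ i j k, i ≠ j → i ≠ k → j ≠ k → ¬ H (p i) (p j) (p k)
  inj : Function.Injective p

/-- cones over books with the apex `v` -/
noncomputable def BA (H : V → V → V → Prop) (t : ℕ) (v : V) : Finset (Fin 2 ⊕ Fin t → V) :=
  univ.filter fun u => Bk H v (u (Sum.inl 0)) (u (Sum.inl 1)) (fun i => u (Sum.inr i))

/-- cones over books with `v` in the spine -/
noncomputable def BS (H : V → V → V → Prop) (t : ℕ) (v : V) : Finset (Fin 2 ⊕ Fin t → V) :=
  univ.filter fun u => Bk H (u (Sum.inl 0)) v (u (Sum.inl 1)) (fun i => u (Sum.inr i))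

/-- positions: two single vertices and the pages -/
def pos (t : ℕ) (s0 s1 sp : Fin 6) : Fin 2 ⊕ Fin t → Fin 6 × Fin (t + 3) :=
  Sum.elim ![(s0, Fin.natAdd t 0), (s1, Fin.natAdd t 1)] fun i => (sp, Fin.castAdd 3 i)

theorem ne_pg {t : ℕ} (i : Fin t) (k : Fin 3) : Fin.castAdd 3 i ≠ Fin.natAdd t k := by
  intro h
  have := congrArg Fin.val h
  simp only [Fin.val_castAdd, Fin.val_natAdd] at this
  have h2 := i.isLt
  omega

theorem ne_x {t : ℕ} {k l : Fin 3} (h : k ≠ l) : Fin.natAdd t k ≠ Fin.natAdd t l := fun e =>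
  h (Fin.natAdd_injective 3 t e)

theorem pos_inj (t : ℕ) (s0 s1 sp : Fin 6) : Function.Injective (pos t s0 s1 sp) := by
  have h : Function.Injective fun x => (pos t s0 s1 sp x).2 := by
    rintro (i | i) (j | j) hij
    · fin_cases i <;> fin_cases j
      · rfl
      · exact absurd hij (ne_x (by decide))
      · exact absurd hij (ne_x (by decide))
      · rfl
    · fin_cases i
      · exact absurd hij.symm (ne_pg j 0)
      · exact absurd hij.symm (ne_pg j 1)
    · fin_cases j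
      · exact absurd hij (ne_pg i 0)
      · exact absurd hij (ne_pg i 1)
    · have := Fin.castAdd_injective t 3 hij
      rw [this]
  intro x y hxy
  exact h (congrArg Prod.snd hxy)

/-- a homogeneous blow-up -/
structure Hom (c : V → Fin 3) (H : V → V → V → Prop) (v : V) (K : ℕ) (Z : Fin 6 → Fin K → V)
    (M : Fin 6 → Fin 6 → Bool) : Prop where
  L : ∀ s s' i j, i ≠ j → (H v (Z s i) (Z s' j) ↔ M s s' = true)
  cl : ∀ s i, c (Z s i) = cls s
  D : ∀ s s' s'' i j k, i ≠ j → i ≠ k → j ≠ k → ¬ Df c H (Z s i) (Z s' j) (Z s'' k)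
  inj : ∀ s s' i j, Z s i = Z s' j → i = j

theorem Hom.tr {v : V} {K : ℕ} {Z : Fin 6 → Fin K → V} {M : Fin 6 → Fin 6 → Bool}
    (h : Hom c H v K Z M) (s s' s'' : Fin 6) (i j k : Fin K) (hij : i ≠ j) (hik : i ≠ k)
    (hjk : j ≠ k) : H (Z s i) (Z s' j) (Z s'' k) ↔ tl (cls s) (cls s') (cls s'') = true := by
  have h1 := h.D s s' s'' i j k hij hik hjk
  unfold Df at h1
  rw [not_not] at h1
  rw [h1, tu_tl (fun e => hij (h.inj _ _ _ _ e)) (fun e => hjk (h.inj _ _ _ _ e))
    (fun e => hik (h.inj _ _ _ _ e)), h.cl, h.cl, h.cl]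

theorem Hom.k4 (S : Sys c H) {v : V} {t : ℕ} {Z : Fin 6 → Fin (t + 3) → V}
    {M : Fin 6 → Fin 6 → Bool} (h : Hom c H v (t + 3) Z M) (s0 s1 s2 : Fin 6)
    (h1 : M s0 s1 = true) (h2 : M s0 s2 = true) (h3 : M s1 s2 = true)
    (h4 : tl (cls s0) (cls s1) (cls s2) = true) : False := by
  have n01 : (Fin.natAdd t 0 : Fin (t + 3)) ≠ Fin.natAdd t 1 := ne_x (by decide)
  have n02 : (Fin.natAdd t 0 : Fin (t + 3)) ≠ Fin.natAdd t 2 := ne_x (by decide)
  have n12 : (Fin.natAdd t 1 : Fin (t + 3)) ≠ Fin.natAdd t 2 := ne_x (by decide)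
  exact S.k4 _ _ _ _ ((h.L s0 s1 _ _ n01).2 h1) ((h.L s0 s2 _ _ n02).2 h2)
    ((h.L s1 s2 _ _ n12).2 h3) ((h.tr s0 s1 s2 _ _ _ n01 n02 n12).2 h4)

theorem Hom.mkA {v : V} {t : ℕ} {Z : Fin 6 → Fin (t + 3) → V} {M : Fin 6 → Fin 6 → Bool}
    (h : Hom c H v (t + 3) Z M) (s0 s1 sp : Fin 6) (h1 : M s0 s1 = true) (h2 : M s0 sp = true)
    (h3 : M s1 sp = true) (h4 : M sp sp = false) (h5 : tl (cls s0) (cls s1) (cls sp) = false)
    (h6 : tl (cls s0) (cls sp) (cls sp) = false) (h7 : tl (cls s1) (cls sp) (cls sp) = false)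
    (h8 : tl (cls sp) (cls sp) (cls sp) = false) :
    (fun i => Z (pos t s0 s1 sp i).1 (pos t s0 s1 sp i).2) ∈ BA H t v := by
  have n01 : (Fin.natAdd t 0 : Fin (t + 3)) ≠ Fin.natAdd t 1 := ne_x (by decide)
  refine mem_filter.mpr ⟨mem_univ _, ?_⟩
  constructor
  · exact (h.L s0 s1 _ _ n01).2 h1
  · exact fun i => (h.L s0 sp _ _ (ne_pg i 0).symm).2 h2
  · exact fun i => (h.L s1 sp _ _ (ne_pg i 1).symm).2 h3
  · intro i hi
    have := (h.tr s0 s1 sp _ _ _ n01 (ne_pg i 0).symm (ne_pg i 1).symm).1 hi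
    rw [h5] at this; exact absurd this (by decide)
  · intro i j hij hi
    have := (h.L sp sp _ _ (fun e => hij (Fin.castAdd_injective t 3 e))).1 hi
    rw [h4] at this; exact absurd this (by decide)
  · intro i j hij hi
    have := (h.tr s0 sp sp _ _ _ (ne_pg i 0).symm (ne_pg j 0).symm
      (fun e => hij (Fin.castAdd_injective t 3 e))).1 hi
    rw [h6] at this; exact absurd this (by decide)
  · intro i j hij hi
    have := (h.tr s1 sp sp _ _ _ (ne_pg i 1).symm (ne_pg j 1).symm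
      (fun e => hij (Fin.castAdd_injective t 3 e))).1 hi
    rw [h7] at this; exact absurd this (by decide)
  · intro i j k hij hik hjk hi
    have := (h.tr sp sp sp _ _ _ (fun e => hij (Fin.castAdd_injective t 3 e))
      (fun e => hik (Fin.castAdd_injective t 3 e))
      (fun e => hjk (Fin.castAdd_injective t 3 e))).1 hi
    rw [h8] at this; exact absurd this (by decide)
  · intro i j hij
    exact Fin.castAdd_injective t 3 (h.inj _ _ _ _ hij)

theorem Hom.mkS (S : Sys c H) {v : V} {t : ℕ} {Z : Fin 6 → Fin (t + 3) → V}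
    {M : Fin 6 → Fin 6 → Bool}
    (h : Hom c H v (t + 3) Z M) (s0 s1 sp : Fin 6) (h1 : M s0 s1 = true) (h2 : M s0 sp = true)
    (h3 : M s1 sp = false) (h4 : M sp sp = false) (h5 : tl (cls s0) (cls s1) (cls sp) = true)
    (h6 : tl (cls s0) (cls sp) (cls sp) = false) (h7 : tl (cls s1) (cls sp) (cls sp) = false)
    (h8 : tl (cls sp) (cls sp) (cls sp) = false) :
    (fun i => Z (pos t s0 s1 sp i).1 (pos t s0 s1 sp i).2) ∈ BS H t v := by
  have n01 : (Fin.natAdd t 0 : Fin (t + 3)) ≠ Fin.natAdd t 1 := ne_x (by decide)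
  refine mem_filter.mpr ⟨mem_univ _, ?_⟩
  constructor
  · exact S.s1 _ _ _ ((h.L s0 s1 _ _ n01).2 h1)
  · exact fun i => S.s1 _ _ _ ((h.L s0 sp _ _ (ne_pg i 0).symm).2 h2)
  · exact fun i => (h.tr s0 s1 sp _ _ _ n01 (ne_pg i 0).symm (ne_pg i 1).symm).2 h5
  · intro i hi
    have := (h.L s1 sp _ _ (ne_pg i 1).symm).1 hi
    rw [h3] at this; exact absurd this (by decide)
  · intro i j hij hi
    have := (h.tr s0 sp sp _ _ _ (ne_pg i 0).symm (ne_pg j 0).symm
      (fun e => hij (Fin.castAdd_injective t 3 e))).1 hi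
    rw [h6] at this; exact absurd this (by decide)
  · intro i j hij hi
    have := (h.L sp sp _ _ (fun e => hij (Fin.castAdd_injective t 3 e))).1 hi
    rw [h4] at this; exact absurd this (by decide)
  · intro i j hij hi
    have := (h.tr s1 sp sp _ _ _ (ne_pg i 1).symm (ne_pg j 1).symm
      (fun e => hij (Fin.castAdd_injective t 3 e))).1 hi
    rw [h7] at this; exact absurd this (by decide)
  · intro i j k hij hik hjk hi
    have := (h.tr sp sp sp _ _ _ (fun e => hij (Fin.castAdd_injective t 3 e))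
      (fun e => hik (Fin.castAdd_injective t 3 e))
      (fun e => hjk (Fin.castAdd_injective t 3 e))).1 hi
    rw [h8] at this; exact absurd this (by decide)
  · intro i j hij
    exact Fin.castAdd_injective t 3 (h.inj _ _ _ _ hij)

theorem tlf : ∀ a : Fin 3, tl a (a + 1) (a + 2) = true ∧ tl a a (a + 1) = true ∧
    tl a (a + 1) (a + 1) = false ∧ tl a a a = false := by decide

/-- a pattern of large weight contains a cone over a book -/
theorem Hom.ext (S : Sys c H) {v : V} {t : ℕ} {Z : Fin 6 → Fin (t + 3) → V}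
    {M : Fin 6 → Fin 6 → Bool} (h : Hom c H v (t + 3) Z M) (hM : 10 < valP M) :
    ∃ s0 s1 sp, (fun i => Z (pos t s0 s1 sp i).1 (pos t s0 s1 sp i).2) ∈ BA H t v ∪ BS H t v := by
  by_contra hcon
  push Not at hcon
  have hA : ∀ s0 s1 sp, (fun i => Z (pos t s0 s1 sp i).1 (pos t s0 s1 sp i).2) ∈ BA H t v →
      False := fun s0 s1 sp hh => hcon s0 s1 sp (mem_union_left _ hh)
  have hS : ∀ s0 s1 sp, (fun i => Z (pos t s0 s1 sp i).1 (pos t s0 s1 sp i).2) ∈ BS H t v →
      False := fun s0 s1 sp hh => hcon s0 s1 sp (mem_union_right _ hh)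
  have n01 : (Fin.natAdd t 0 : Fin (t + 3)) ≠ Fin.natAdd t 1 := ne_x (by decide)
  have sym : ∀ s s', M s s' = M s' s := by
    intro s s'
    rw [Bool.eq_iff_iff, ← h.L s s' _ _ n01, ← h.L s' s _ _ n01.symm]
    exact ⟨S.s2 _ _ _, S.s2 _ _ _⟩
  refine absurd (valP_le (P := M) (τ := fun s => M s s) ?_) (by omega)
  constructor
  · intro s s' _
    exact sym s s'
  · intro s0 s1 s2 a b p1 p2 p3
    exact h.k4 S s0 s1 s2 p1 ((sym _ _).trans p3) p2 (by rw [a, b]; exact (tlf _).1)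
  · intro s s' q hne a b p1 p2 p3
    exact h.k4 S s s' q p1 p2 p3 (by rw [a, b]; exact (tlf _).2.1)
  · intro s s' q hne a b p1 p2 p3 p4
    exact hS s s' q (h.mkS S s s' q p1 p2 p3 p4 (by rw [a, b]; exact (tlf _).2.1)
      (by rw [b]; exact (tlf _).2.2.1) (by rw [a, b]; exact (tlf _).2.2.1) (tlf _).2.2.2)
  · intro s q a p1 p2
    exact h.k4 S s s q p1 p2 p2 (by rw [a]; exact (tlf _).2.1)
  · intro s s' hne a p1 p2 p3
    exact hA s s s' (h.mkA s s s' p2 p1 p1 p3 (by rw [a]; exact (tlf _).2.2.2)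
      (by rw [a]; exact (tlf _).2.2.2) (by rw [a]; exact (tlf _).2.2.2) (tlf _).2.2.2)
  · intro r s s' hne a b p1 p2 p3 p4
    exact hA r s' s (h.mkA r s' s p3 p2 ((sym _ _).trans p1) p4
      (by rw [a, b]; exact (tlf _).2.2.1) (by rw [b]; exact (tlf _).2.2.1)
      (by rw [a]; exact (tlf _).2.2.2) (tlf _).2.2.2)

end Pool.Agent.T2H13.BK
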