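import Mathlib

/-! Adjacencies of six vertices, two in each of three classes, in the link of a vertex. -/

set_option autoImplicit false
set_option maxHeartbeats 4000000

namespace Pool.Agent.T2H13.BK

/-- inner edges in the first and in the second class -/
theorem two_nat (a00 a01 a10 a11 b00 b01 b10 b11 g00 g01 g10 g11 d0 d1 d2 e2 : ℕ)
    (hd0 : d0 ≤ 1) (hd1 : d1 ≤ 1) (hd2 : d2 ≤ 1) (he2 : e2 ≤ 1)
    (p1 : a00 + a10 ≤ 1) (p2 : a01 + a11 ≤ 1) (p3 : b00 + b10 ≤ 1) (p4 : b01 + b11 ≤ 1)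
    (q1 : a00 ≤ d1) (q2 : a10 ≤ d1) (q3 : a01 ≤ d1) (q4 : a11 ≤ d1)
    (q5 : b00 ≤ d2) (q6 : b10 ≤ d2) (q7 : b01 ≤ e2) (q8 : b11 ≤ e2)
    (r1 : d0 + a00 ≤ 1) (r2 : d0 + a01 ≤ 1) (r3 : d0 + a10 ≤ 1) (r4 : d0 + a11 ≤ 1)
    (r5 : d1 + b00 ≤ 1) (r6 : d1 + b01 ≤ 1) (r7 : d1 + b10 ≤ 1) (r8 : d1 + b11 ≤ 1)
    (r9 : d2 + g00 ≤ 1) (r10 : d2 + g01 ≤ 1) (r11 : e2 + g10 ≤ 1) (r12 : e2 + g11 ≤ 1)
    (u1 : g00 + g01 ≤ 1 + d0) (u2 : g10 + g11 ≤ 1 + d0) :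
    a00 + a01 + a10 + a11 + b00 + b01 + b10 + b11 + g00 + g01 + g10 + g11 ≤ 4 := by
  rcases Nat.le_one_iff_eq_zero_or_eq_one.1 hd1 with rfl | rfl
  · have : a00 = 0 := by omega
    have : a01 = 0 := by omega
    have : a10 = 0 := by omega
    have : a11 = 0 := by omega
    subst_vars
    rcases Nat.le_one_iff_eq_zero_or_eq_one.1 hd2 with rfl | rfl <;>
    rcases Nat.le_one_iff_eq_zero_or_eq_one.1 he2 with rfl | rfl <;> linarith
  · have : b00 = 0 := by omega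
    have : b01 = 0 := by omega
    have : b10 = 0 := by omega
    have : b11 = 0 := by omega
    subst_vars
    rcases Nat.le_one_iff_eq_zero_or_eq_one.1 hd0 with rfl | rfl
    · linarith
    · have : a00 = 0 := by omega
      have : a01 = 0 := by omega
      have : a10 = 0 := by omega
      have : a11 = 0 := by omega
      subst_vars
      linarith

/-- inner edges in all classes -/
theorem three_nat (a00 a01 a10 a11 b00 b01 b10 b11 g00 g01 g10 g11 d0 d1 d2 : ℕ)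
    (hd0 : d0 ≤ 1) (hd1 : d1 ≤ 1) (hd2 : d2 ≤ 1)
    (p1 : a00 + a10 ≤ 1) (p2 : a01 + a11 ≤ 1) (p3 : b00 + b10 ≤ 1) (p4 : b01 + b11 ≤ 1)
    (p5 : g00 + g10 ≤ 1) (p6 : g01 + g11 ≤ 1)
    (q1 : a00 ≤ d1) (q2 : a10 ≤ d1) (q3 : a01 ≤ d1) (q4 : a11 ≤ d1)
    (q5 : b00 ≤ d2) (q6 : b10 ≤ d2) (q7 : b01 ≤ d2) (q8 : b11 ≤ d2)
    (q9 : g00 ≤ d0) (q10 : g10 ≤ d0) (q11 : g01 ≤ d0) (q12 : g11 ≤ d0)
    (r1 : d0 + a00 ≤ 1) (r2 : d0 + a01 ≤ 1) (r3 : d0 + a10 ≤ 1) (r4 : d0 + a11 ≤ 1)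
    (r5 : d1 + b00 ≤ 1) (r6 : d1 + b01 ≤ 1) (r7 : d1 + b10 ≤ 1) (r8 : d1 + b11 ≤ 1)
    (r9 : d2 + g00 ≤ 1) (r10 : d2 + g01 ≤ 1) (r11 : d2 + g10 ≤ 1) (r12 : d2 + g11 ≤ 1) :
    a00 + a01 + a10 + a11 + b00 + b01 + b10 + b11 + g00 + g01 + g10 + g11 ≤ 3 := by
  rcases Nat.le_one_iff_eq_zero_or_eq_one.1 hd0 with rfl | rfl <;>
  rcases Nat.le_one_iff_eq_zero_or_eq_one.1 hd1 with rfl | rfl <;>
  rcases Nat.le_one_iff_eq_zero_or_eq_one.1 hd2 with rfl | rfl <;> linarith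

theorem le_one_cases {a : ℕ} (h : a ≤ 1) : a = 0 ∨ a = 1 := Nat.le_one_iff_eq_zero_or_eq_one.1 h

/-- the bound for the number of adjacencies -/
theorem fin6_nat (i0 i1 i2 a00 a01 a10 a11 b00 b01 b10 b11 g00 g01 g10 g11 d0 e0 d1 e1 d2 e2 w : ℕ)
    (hi0 : i0 ≤ 1) (hi1 : i1 ≤ 1) (hi2 : i2 ≤ 1) (hw : w ≤ 1)
    (hd0 : d0 ≤ 1) (he0 : e0 ≤ 1) (hd1 : d1 ≤ 1) (he1 : e1 ≤ 1) (hd2 : d2 ≤ 1) (he2 : e2 ≤ 1)
    (hw2 : w = 1 → 2 ≤ i0 + i1 + i2)
    (t1 : a00 + b00 + g00 ≤ 2) (t2 : a00 + b01 + g10 ≤ 2) (t3 : a01 + b10 + g00 ≤ 2)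
    (t4 : a01 + b11 + g10 ≤ 2) (t5 : a10 + b00 + g01 ≤ 2) (t6 : a10 + b01 + g11 ≤ 2)
    (t7 : a11 + b10 + g01 ≤ 2) (t8 : a11 + b11 + g11 ≤ 2)
    (p1 : i0 + a00 + a10 ≤ 2) (p2 : i0 + a01 + a11 ≤ 2) (p3 : i1 + b00 + b10 ≤ 2)
    (p4 : i1 + b01 + b11 ≤ 2) (p5 : i2 + g00 + g10 ≤ 2) (p6 : i2 + g01 + g11 ≤ 2)
    (q1 : i0 + a00 ≤ 1 + d1) (q2 : i0 + a10 ≤ 1 + d1) (q3 : i0 + a01 ≤ 1 + e1)
    (q4 : i0 + a11 ≤ 1 + e1) (q5 : i1 + b00 ≤ 1 + d2) (q6 : i1 + b10 ≤ 1 + d2)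
    (q7 : i1 + b01 ≤ 1 + e2) (q8 : i1 + b11 ≤ 1 + e2) (q9 : i2 + g00 ≤ 1 + d0)
    (q10 : i2 + g10 ≤ 1 + d0) (q11 : i2 + g01 ≤ 1 + e0) (q12 : i2 + g11 ≤ 1 + e0)
    (r1 : d0 + a00 ≤ 1) (r2 : d0 + a01 ≤ 1) (r3 : e0 + a10 ≤ 1) (r4 : e0 + a11 ≤ 1)
    (r5 : d1 + b00 ≤ 1) (r6 : d1 + b01 ≤ 1) (r7 : e1 + b10 ≤ 1) (r8 : e1 + b11 ≤ 1)
    (r9 : d2 + g00 ≤ 1) (r10 : d2 + g01 ≤ 1) (r11 : e2 + g10 ≤ 1) (r12 : e2 + g11 ≤ 1)
    (s1 : i0 + d0 ≤ 1 + e0) (s2 : i0 + e0 ≤ 1 + d0) (s3 : i1 + d1 ≤ 1 + e1)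
    (s4 : i1 + e1 ≤ 1 + d1) (s5 : i2 + d2 ≤ 1 + e2) (s6 : i2 + e2 ≤ 1 + d2)
    (u1 : i0 + g00 + g01 ≤ 2 + d0) (u2 : i0 + g10 + g11 ≤ 2 + d0)
    (u3 : i1 + a00 + a01 ≤ 2 + d1) (u4 : i1 + a10 + a11 ≤ 2 + d1)
    (u5 : i2 + b00 + b01 ≤ 2 + d2) (u6 : i2 + b10 + b11 ≤ 2 + d2) :
    2 * (i0 + i1 + i2) + (a00 + a01 + a10 + a11 + b00 + b01 + b10 + b11 + g00 + g01 + g10 + g11) +
      w ≤ 10 := by
  have hT : a00 + a01 + a10 + a11 + b00 + b01 + b10 + b11 + g00 + g01 + g10 + g11 ≤ 8 := by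
    linarith
  have low : i0 + i1 + i2 ≤ 1 → 2 * (i0 + i1 + i2) +
      (a00 + a01 + a10 + a11 + b00 + b01 + b10 + b11 + g00 + g01 + g10 + g11) + w ≤ 10 := by
    intro h
    have hw0 : w = 0 := by
      rcases le_one_cases hw with h1 | h1
      · exact h1
      · have := hw2 h1; exact absurd this (by clear * - h; omega)
    linarith
  rcases le_one_cases hi0 with rfl | rfl
  · rcases le_one_cases hi1 with rfl | rfl
    · exact low (by clear * - hi2; omega)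
    · rcases le_one_cases hi2 with rfl | rfl
      · exact low (by norm_num)
      · -- classes 1 and 2
        have x1 : e1 = d1 := by clear * - s3 s4; omega
        have x2 : e2 = d2 := by clear * - s5 s6; omega
        subst x1 x2
        have := two_nat b00 b01 b10 b11 g00 g01 g10 g11 a00 a01 a10 a11 e1 e2 d0 e0
          he1 he2 hd0 he0 (by linarith) (by linarith) (by linarith) (by linarith) (by linarith)
          (by linarith) (by linarith) (by linarith) (by linarith) (by linarith) (by linarith)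
          (by linarith) r5 r6 r7 r8 r9 r10 r11 r12 r1 r2 r3 r4 (by linarith) (by linarith)
        linarith
  · rcases le_one_cases hi1 with rfl | rfl
    · rcases le_one_cases hi2 with rfl | rfl
      · exact low (by norm_num)
      · -- classes 2 and 0
        have x1 : e0 = d0 := by clear * - s1 s2; omega
        have x2 : e2 = d2 := by clear * - s5 s6; omega
        subst x1 x2
        have := two_nat g00 g01 g10 g11 a00 a01 a10 a11 b00 b01 b10 b11 e2 e0 d1 e1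
          he2 he0 hd1 he1 (by linarith) (by linarith) (by linarith) (by linarith) (by linarith)
          (by linarith) (by linarith) (by linarith) (by linarith) (by linarith) (by linarith)
          (by linarith) r9 r10 r11 r12 r1 r2 r3 r4 r5 r6 r7 r8 (by linarith) (by linarith)
        linarith
    · rcases le_one_cases hi2 with rfl | rfl
      · -- classes 0 and 1
        have x1 : e0 = d0 := by clear * - s1 s2; omega
        have x2 : e1 = d1 := by clear * - s3 s4; omega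
        subst x1 x2
        have := two_nat a00 a01 a10 a11 b00 b01 b10 b11 g00 g01 g10 g11 e0 e1 d2 e2
          he0 he1 hd2 he2 (by linarith) (by linarith) (by linarith) (by linarith) (by linarith)
          (by linarith) (by linarith) (by linarith) (by linarith) (by linarith) (by linarith)
          (by linarith) r1 r2 r3 r4 r5 r6 r7 r8 r9 r10 r11 r12 (by linarith) (by linarith)
        linarith
      · have x1 : e0 = d0 := by clear * - s1 s2; omega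
        have x2 : e1 = d1 := by clear * - s3 s4; omega
        have x3 : e2 = d2 := by clear * - s5 s6; omega
        subst x1 x2 x3
        have := three_nat a00 a01 a10 a11 b00 b01 b10 b11 g00 g01 g10 g11 e0 e1 e2
          he0 he1 he2 (by linarith) (by linarith) (by linarith) (by linarith) (by linarith)
          (by linarith) (by linarith) (by linarith) (by linarith) (by linarith) (by linarith)
          (by linarith) (by linarith) (by linarith) (by linarith)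
          (by linarith) (by linarith) (by linarith) r1 r2 r3 r4 r5 r6 r7 r8 r9 r10 r11 r12
        linarith

end Pool.Agent.T2H13.BK
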