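import Pool.Agent.T2H13.BK.Cln

/-! Pairs of vertices in few cones over books, when all links are near those of Turán's construction. -/

set_option autoImplicit false
set_option linter.unusedVariables false
set_option linter.unusedSectionVars false
set_option maxHeartbeats 4000000

open Finset
open scoped Classical

namespace Pool.Agent.T2H13.BK
open Pool.Agent.Y439.Loc hiding sum_nonneg' EE
open Pool.Agent.Y903.TX

variable {V : Type} [Fintype V] {c : V → Fin 3} {H : V → V → V → Prop} {n σ : ℝ}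

/-- `x` is a vertex of the cone -/
def In {V : Type} {t : ℕ} (q : (V × V × V) × (Fin t → V)) (x : V) : Prop :=
  x = q.1.1 ∨ x = q.1.2.1 ∨ x = q.1.2.2 ∨ ∃ i, x = q.2 i

/-- number of cones over books which contain `x` and `y` -/
noncomputable def cop (t : ℕ) (H : V → V → V → Prop) (x y : V) : ℕ :=
  ((univ : Finset ((V × V × V) × (Fin t → V))).filter fun q =>
    Bk H q.1.1 q.1.2.1 q.1.2.2 q.2 ∧ In q x ∧ In q y).card

theorem card_ind {W : Type} [Fintype W] (p : W → Prop) [DecidablePred p] :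
    ((univ.filter p).card : ℝ) = ∑ x, ind (p x) := by
  rw [card_filter]
  push_cast
  refine sum_congr rfl fun x _ => ?_
  by_cases h : p x <;> simp [ind, h]

theorem vx_nn (A : Vx c H n σ) : (Fintype.card V : ℝ) = n := card_sq A.hn

theorem vx_WD (A : Vx c H n σ) : WD c H ≤ σ ^ 2 * n ^ 3 := by
  rw [WD_wr]
  refine (sum_le_sum fun v _ => A.hw v).trans (le_of_eq ?_)
  rw [sum_const, card_univ, nsmul_eq_mul, vx_nn A]
  ring

theorem vx_sumDf (A : Vx c H n σ) (v : V) : ∑ y, ∑ z, ind (Df c H v y z) ≤ σ ^ 2 * n ^ 2 := A.hw v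

/-- no edges of this type -/
theorem noH {x y z : V} (h1 : ¬ Df c H x y z) (h2 : ¬ Tu c x y z) : ¬ H x y z := fun h =>
  h1 fun h3 => h2 (h3.1 h)

theorem isH {x y z : V} (h1 : ¬ Df c H x y z) (h2 : Tu c x y z) : H x y z := by
  unfold Df at h1
  rw [not_not] at h1
  exact h1.2 h2

/-- the pages of cones with given apex and spine -/
theorem book_pages (A : Vx c H n σ) {t : ℕ} (a b d : V) (ha : c b = c a) (hd : c d = c a)
    (hab : H a b d) {κ : ℝ} (hκ : 0 ≤ κ)
    (hW : κ * n ≤ ∑ w, ind ((c w = c a + 1 ∧ H a b w ∧ H a d w) ∧ ¬ H b d w)) :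
    (κ ^ t - 9 * (t : ℝ) ^ 3 * σ ^ 2) * n ^ t ≤
      (((univ : Finset (Fin t → V)).filter fun p => Bk H a b d p).card : ℝ) := by
  have hp := A.pos
  set W : Finset V := univ.filter fun w => (c w = c a + 1 ∧ H a b w ∧ H a d w) ∧ ¬ H b d w with hWd
  have h1 : κ * n ≤ (W.card : ℝ) := by
    refine hW.trans (le_of_eq ?_)
    rw [hWd, card_ind]
  have hY : ((Fintype.piFinset fun _ : Fin t => W).card : ℝ) = (W.card : ℝ) ^ t := by
    rw [Fintype.card_piFinset, prod_const, card_univ, Fintype.card_fin]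
    push_cast; rfl
  have hb := A.big
  have h2 := clean_card (I := Fin t) (ε := 3 * σ ^ 2) (vx_nn A) hp (by nlinarith)
    (fun w w' => Df c H a w w' ∨ Df c H b w w' ∨ Df c H d w w') (Df c H) ?_ ?_
    (Fintype.piFinset fun _ : Fin t => W)
  · rw [Fintype.card_fin, hY] at h2
    have h3 : (κ * n) ^ t ≤ (W.card : ℝ) ^ t := pow_le_pow_left₀ (by positivity) h1 t
    have h4 : ((Fintype.piFinset fun _ : Fin t => W).filter
        (Cl2 (fun w w' => Df c H a w w' ∨ Df c H b w w' ∨ Df c H d w w') (Df c H))).card ≤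
        ((univ : Finset (Fin t → V)).filter fun p => Bk H a b d p).card := by
      refine card_le_card fun p hp => ?_
      obtain ⟨h5, h6, h7, h8⟩ := mem_filter.mp hp
      rw [Fintype.mem_piFinset] at h5
      have h9 : ∀ i, (c (p i) = c a + 1 ∧ H a b (p i) ∧ H a d (p i)) ∧ ¬ H b d (p i) :=
        fun i => (mem_filter.mp (h5 i)).2
      refine mem_filter.mpr ⟨mem_univ _, ?_⟩
      constructor
      · exact hab
      · exact fun i => (h9 i).1.2.1
      · exact fun i => (h9 i).1.2.2
      · exact fun i => (h9 i).2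
      · intro i j hij
        exact noH (fun h => h7 i j hij (Or.inl h)) (tu_not (h9 i).1.1 (h9 j).1.1)
      · intro i j hij
        exact noH (fun h => h7 i j hij (Or.inr (Or.inl h)))
          (tu_not (by rw [(h9 i).1.1, ha]) (by rw [(h9 j).1.1, ha]))
      · intro i j hij
        exact noH (fun h => h7 i j hij (Or.inr (Or.inr h)))
          (tu_not (by rw [(h9 i).1.1, hd]) (by rw [(h9 j).1.1, hd]))
      · intro i j k hij hik hjk
        exact noH (h8 i j k hij hik hjk)
          (tu_mono (by rw [(h9 i).1.1, (h9 j).1.1]) (by rw [(h9 i).1.1, (h9 k).1.1]))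
      · exact h6
    have h5 : (((Fintype.piFinset fun _ : Fin t => W).filter
        (Cl2 (fun w w' => Df c H a w w' ∨ Df c H b w w' ∨ Df c H d w w') (Df c H))).card : ℝ) ≤
        (((univ : Finset (Fin t → V)).filter fun p => Bk H a b d p).card : ℝ) := by
      exact_mod_cast h4
    have h6 : (κ ^ t - 9 * (t : ℝ) ^ 3 * σ ^ 2) * n ^ t =
        (κ * n) ^ t - 3 * (t : ℝ) ^ 3 * (3 * σ ^ 2 * n ^ t) := by
      rw [mul_pow]; ring
    rw [h6]
    linarith
  · have e1 : ∀ w w', ind (Df c H a w w' ∨ Df c H b w w' ∨ Df c H d w w') ≤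
        ind (Df c H a w w') + ind (Df c H b w w') + ind (Df c H d w w') := fun w w' =>
      ind_or3 fun h => h
    refine (sum_le_sum fun w _ => sum_le_sum fun w' _ => e1 w w').trans ?_
    simp only [sum_add_distrib]
    have := vx_sumDf A a
    have := vx_sumDf A b
    have := vx_sumDf A d
    linarith
  · have := vx_WD A
    have h0 : 0 ≤ σ ^ 2 * n ^ 3 := by positivity
    have e : ∑ x, ∑ y, ∑ z, ind (Df c H x y z) = Pool.Agent.Y903.TX.WD c H := rfl
    rw [e]
    linarith

/-- the number of edges inside a class at a pair -/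
theorem io_le (A : Vx c H n σ) {t : ℕ} {M : ℝ} (hσ0 : 0 < σ) (hσ1 : σ ^ 2 ≤ 1 / 100000)
    (hσ2 : σ ≤ 1 / 100) (hσ : 18 * (t : ℝ) ^ 3 * σ ^ 2 ≤ (1 / 20) ^ t)
    (hM1 : 12000 * M ≤ (1 / 20) ^ t)
    (hM : ∀ x y, x ≠ y → (cop t H x y : ℝ) ≤ M * n ^ (t + 1)) (x y : V) :
    io c H x y ≤ n / 3000 := by
  have hp := A.pos
  by_cases hxy : x = y
  · rw [← hxy, io_self A.S]; positivity
  by_cases hc : c y = c x
  swap
  · have : io c H x y = 0 := sum_eq_zero fun z _ => ind_f fun h => hc h.1.1
    rw [this]; positivity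
  -- the pages at `z`
  let Wz : V → ℝ := fun z => ∑ w, ind ((c w = c z + 1 ∧ H z x w ∧ H z y w) ∧ ¬ H x y w)
  let big : V → Prop := fun z => (c z = c x ∧ H z x y) ∧ 1 / 20 * n ≤ Wz z
  -- few `z` with many pages
  have h1 : (∑ z, ind (big z)) * ((1 / 20) ^ t / 2 * n ^ t) ≤ (cop t H x y : ℝ) := by
    have e1 : (∑ z, ind (big z)) * ((1 / 20) ^ t / 2 * n ^ t) ≤ ∑ z,
        (((univ : Finset (Fin t → V)).filter fun p => Bk H z x y p).card : ℝ) := by
      rw [sum_mul]
      refine sum_le_sum fun z _ => ?_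
      by_cases hz : big z
      · rw [ind_t hz, one_mul]
        have h2 := book_pages A (t := t) z x y hz.1.1.symm (by rw [hc, hz.1.1]) hz.1.2
          (κ := 1 / 20) (by norm_num) hz.2
        refine le_trans ?_ h2
        refine mul_le_mul_of_nonneg_right ?_ (by positivity)
        linarith
      · rw [ind_f hz, zero_mul]
        exact Nat.cast_nonneg _
    refine e1.trans ?_
    have e2 : ∑ z, (((univ : Finset (Fin t → V)).filter fun p => Bk H z x y p).card) ≤
        cop t H x y := by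
      rw [← card_sigma]
      refine card_le_card_of_injOn (fun q => ((q.1, x, y), q.2)) ?_ ?_
      · rintro ⟨z, p⟩ hq
        have h3 := (mem_filter.mp (mem_sigma.mp (mem_coe.mp hq)).2).2
        exact mem_coe.mpr (mem_filter.mpr ⟨mem_univ _, h3, Or.inr (Or.inl rfl),
          Or.inr (Or.inr (Or.inl rfl))⟩)
      · rintro ⟨z, p⟩ _ ⟨z', p'⟩ _ h
        have g1 := (Prod.mk.inj (Prod.mk.inj h).1).1
        have g2 := (Prod.mk.inj h).2
        dsimp only at g1 g2
        subst g1 g2
        rfl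
    exact_mod_cast e2
  have h2 : ∑ z, ind (big z) ≤ n / 6000 := by
    have g1 := hM x y hxy
    have g2 : (0 : ℝ) < (1 / 20) ^ t / 2 * n ^ t := by positivity
    have g3 : M * n ^ (t + 1) ≤ n / 6000 * ((1 / 20) ^ t / 2 * n ^ t) := by
      have : n / 6000 * ((1 / 20) ^ t / 2 * n ^ t) = (1 / 20) ^ t / 12000 * n ^ (t + 1) := by ring
      rw [this]
      refine mul_le_mul_of_nonneg_right ?_ (by positivity)
      linarith
    exact le_of_mul_le_mul_right (h1.trans (g1.trans g3)) g2
  -- the others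
  have h3 : (∑ z, ind ((c z = c x ∧ H z x y) ∧ ¬ big z)) * (n / 4) ≤
      wr c H x + wr c H y := by
    have e1 : ∀ z, ind ((c z = c x ∧ H z x y) ∧ ¬ big z) * (n / 4) ≤
        ∑ w, (ind (¬ (H x z w ↔ Tu c x z w)) + ind (¬ (H y z w ↔ Tu c y z w))) := by
      intro z
      by_cases hz : (c z = c x ∧ H z x y) ∧ ¬ big z
      · rw [ind_t hz, one_mul]
        have hW : Wz z < 1 / 20 * n := by
          by_contra hcon
          exact hz.2 ⟨hz.1, not_lt.mp hcon⟩
        have hsz := A.lo (c x + 1)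
        have hzx : z ≠ x := A.S.ne _ _ _ hz.1.2
        have hzy : z ≠ y := A.S.ne13 hz.1.2
        have e2 : sz c (c x + 1) ≤ ∑ w, ((ind (¬ (H x z w ↔ Tu c x z w)) +
            ind (¬ (H y z w ↔ Tu c y z w))) +
            ind ((c w = c z + 1 ∧ H z x w ∧ H z y w) ∧ ¬ H x y w)) := by
          unfold sz
          refine sum_le_sum fun w _ => ?_
          have a1 := ind_nonneg (¬ (H x z w ↔ Tu c x z w))
          have a2 := ind_nonneg (¬ (H y z w ↔ Tu c y z w))
          have a3 := ind_nonneg ((c w = c z + 1 ∧ H z x w ∧ H z y w) ∧ ¬ H x y w)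
          by_cases hw : c w = c x + 1
          · rw [ind_t hw]
            by_cases hx : H x z w
            · by_cases hy : H y z w
              · have hn' : ¬ H x y w := fun h =>
                  A.S.k4 z x y w hz.1.2 (A.S.s1 _ _ _ hx) (A.S.s1 _ _ _ hy) h
                rw [ind_t (p := (c w = c z + 1 ∧ H z x w ∧ H z y w) ∧ ¬ H x y w)
                  ⟨⟨by rw [hw, hz.1.1], A.S.s1 _ _ _ hx, A.S.s1 _ _ _ hy⟩, hn'⟩]
                linarith
              · have ht : Tu c y z w := tu_two (by rw [hz.1.1, hc]) (by rw [hw, hc]) hzy.symm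
                rw [ind_t (p := ¬ (H y z w ↔ Tu c y z w)) fun h => hy (h.2 ht)]
                linarith
            · have ht : Tu c x z w := tu_two hz.1.1 hw hzx.symm
              rw [ind_t (p := ¬ (H x z w ↔ Tu c x z w)) fun h => hx (h.2 ht)]
              linarith
          · rw [ind_f hw]; linarith
        rw [sum_add_distrib] at e2
        have e3 : ∑ w, ind ((c w = c z + 1 ∧ H z x w ∧ H z y w) ∧ ¬ H x y w) = Wz z := rfl
        rw [e3] at e2
        nlinarith
      · rw [ind_f hz, zero_mul]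
        exact sum_nonneg fun _ _ => add_nonneg (ind_nonneg _) (ind_nonneg _)
    rw [sum_mul]
    refine (sum_le_sum fun z _ => e1 z).trans (le_of_eq ?_)
    unfold wr
    rw [← sum_add_distrib]
    exact sum_congr rfl fun z _ => sum_add_distrib
  have h4 : ∑ z, ind ((c z = c x ∧ H z x y) ∧ ¬ big z) ≤ n / 6000 := by
    have g1 := A.hw x
    have g2 := A.hw y
    have g3 : σ ^ 2 * n ^ 2 ≤ 1 / 100000 * n ^ 2 := mul_le_mul_of_nonneg_right hσ1 (by positivity)
    have g4 : (∑ z, ind ((c z = c x ∧ H z x y) ∧ ¬ big z)) * (n / 4) ≤ n / 6000 * (n / 4) := by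
      nlinarith
    exact le_of_mul_le_mul_right g4 (by positivity)
  -- together
  have h5 : io c H x y ≤ ∑ z, ind (big z) + ∑ z, ind ((c z = c x ∧ H z x y) ∧ ¬ big z) := by
    unfold io
    rw [← sum_add_distrib]
    refine sum_le_sum fun z _ => ind_or fun h => ?_
    have hz : H z x y := A.S.s3 h.2
    by_cases hb : big z
    · exact Or.inl hb
    · exact Or.inr ⟨⟨h.1.2, hz⟩, hb⟩
  linarith

end Pool.Agent.T2H13.BK
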