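import Pool.Agent.T2H13.BK.Sum

/-! The link of a vertex with few six-tuples of large weight is near a link of Turán's construction. -/

set_option autoImplicit false
set_option linter.unusedVariables false
set_option linter.unusedSectionVars false
set_option maxHeartbeats 4000000

open Finset
open scoped Classical

namespace Pool.Agent.T2H13.BK
open Pool.Agent.Y439.Loc hiding sum_nonneg' EE
open Pool.Agent.Y903.TX

variable {V : Type} [Fintype V] {c : V → Fin 3} {H : V → V → V → Prop}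

theorem valP_19 (P : Fin 6 → Fin 6 → Bool) : valP P ≤ 19 := by
  have k : ∀ b : Bool, b.toNat ≤ 1 := Bool.toNat_le
  unfold valP
  have := k (P 0 1)
  have := k (P 2 3)
  have := k (P 4 5)
  have := k (P 0 2)
  have := k (P 0 3)
  have := k (P 1 2)
  have := k (P 1 3)
  have := k (P 2 4)
  have := k (P 2 5)
  have := k (P 3 4)
  have := k (P 3 5)
  have := k (P 4 0)
  have := k (P 4 1)
  have := k (P 5 0)
  have := k (P 5 1)
  have := k (decide (2 ≤ (P 0 1).toNat + (P 2 3).toNat + (P 4 5).toNat))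
  linarith

theorem toNat_ind (p : Prop) [Decidable p] : (((decide p).toNat : ℕ) : ℝ) = ind p := by
  by_cases h : p <;> simp [ind, h]

theorem pat_ind (v : V) (w : Fin 6 → V) (s s' : Fin 6) :
    (((pat H v w s s').toNat : ℕ) : ℝ) = ind (H v (w s) (w s')) := by
  unfold pat
  exact toNat_ind _

/-- the inequality for the sums -/
theorem sum_ineq (v : V) (p q r s : Fin 6)
    (hk : ∀ w : Fin 6 → V, H v (w p) (w q) → H v (w r) (w s) →
      2 ≤ (pat H v w 0 1).toNat + (pat H v w 2 3).toNat + (pat H v w 4 5).toNat) :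
    2 * ((∑ w : Fin 6 → V, cw c w * ind (H v (w 0) (w 1))) +
        (∑ w : Fin 6 → V, cw c w * ind (H v (w 2) (w 3))) +
        ∑ w : Fin 6 → V, cw c w * ind (H v (w 4) (w 5))) +
      ((∑ w : Fin 6 → V, cw c w * ind (H v (w 0) (w 2))) +
        (∑ w : Fin 6 → V, cw c w * ind (H v (w 0) (w 3))) +
        (∑ w : Fin 6 → V, cw c w * ind (H v (w 1) (w 2))) +
        (∑ w : Fin 6 → V, cw c w * ind (H v (w 1) (w 3))) +
        (∑ w : Fin 6 → V, cw c w * ind (H v (w 2) (w 4))) +
        (∑ w : Fin 6 → V, cw c w * ind (H v (w 2) (w 5))) +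
        (∑ w : Fin 6 → V, cw c w * ind (H v (w 3) (w 4))) +
        (∑ w : Fin 6 → V, cw c w * ind (H v (w 3) (w 5))) +
        (∑ w : Fin 6 → V, cw c w * ind (H v (w 4) (w 0))) +
        (∑ w : Fin 6 → V, cw c w * ind (H v (w 4) (w 1))) +
        (∑ w : Fin 6 → V, cw c w * ind (H v (w 5) (w 0))) +
        ∑ w : Fin 6 → V, cw c w * ind (H v (w 5) (w 1))) +
      (∑ w : Fin 6 → V, cw c w * ind (H v (w p) (w q) ∧ H v (w r) (w s))) ≤
      10 * ∏ s, sz c (cls s) + 9 * ((SB c H v).card : ℝ) := by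
  have e1 : ((SB c H v).card : ℝ) = ∑ w : Fin 6 → V, ind (w ∈ SB c H v) := by
    have f1 : ∑ w : Fin 6 → V, ind (w ∈ SB c H v) = ∑ w ∈ SB c H v, ind (w ∈ SB c H v) :=
      (sum_subset (subset_univ _) fun w _ hw => ind_f hw).symm
    rw [f1, sum_congr rfl fun w hw => ind_t hw, sum_const, nsmul_eq_mul, mul_one]
  rw [e1, ← cw_sum, mul_sum, mul_sum, ← sum_add_distrib, ← sum_add_distrib, ← sum_add_distrib,
    ← sum_add_distrib, ← sum_add_distrib, ← sum_add_distrib, ← sum_add_distrib,
    ← sum_add_distrib, ← sum_add_distrib, ← sum_add_distrib, ← sum_add_distrib,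
    ← sum_add_distrib, ← sum_add_distrib, ← sum_add_distrib, mul_sum, ← sum_add_distrib,
    ← sum_add_distrib]
  refine sum_le_sum fun w _ => ?_
  by_cases hw : ∀ s, c (w s) = cls s
  · have hc : cw c w = 1 := by rw [cw_eq]; exact ind_t hw
    rw [hc]
    simp only [one_mul, mul_one]
    have h1 : ((valP (pat H v w) : ℕ) : ℝ) = 2 * (ind (H v (w 0) (w 1)) + ind (H v (w 2) (w 3)) +
        ind (H v (w 4) (w 5))) + (ind (H v (w 0) (w 2)) + ind (H v (w 0) (w 3)) +
        ind (H v (w 1) (w 2)) + ind (H v (w 1) (w 3)) + ind (H v (w 2) (w 4)) +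
        ind (H v (w 2) (w 5)) + ind (H v (w 3) (w 4)) + ind (H v (w 3) (w 5)) +
        ind (H v (w 4) (w 0)) + ind (H v (w 4) (w 1)) + ind (H v (w 5) (w 0)) +
        ind (H v (w 5) (w 1))) + ((((decide (2 ≤ (pat H v w 0 1).toNat + (pat H v w 2 3).toNat +
          (pat H v w 4 5).toNat)).toNat : ℕ)) : ℝ) := by
      unfold valP
      push_cast
      simp only [pat_ind]
    have h2 : ind (H v (w p) (w q) ∧ H v (w r) (w s)) ≤
        ((((decide (2 ≤ (pat H v w 0 1).toNat + (pat H v w 2 3).toNat +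
          (pat H v w 4 5).toNat)).toNat : ℕ)) : ℝ) := by
      rw [toNat_ind]
      exact ind_mono fun h => hk w h.1 h.2
    by_cases hS : w ∈ SB c H v
    · rw [ind_t hS]
      have h3 : ((valP (pat H v w) : ℕ) : ℝ) ≤ 19 := by exact_mod_cast valP_19 _
      linarith
    · rw [ind_f hS]
      have h3 : valP (pat H v w) ≤ 10 := by
        by_contra hcon
        exact hS (mem_filter.mpr ⟨mem_univ _, hw, not_le.mp hcon⟩)
      have h4 : ((valP (pat H v w) : ℕ) : ℝ) ≤ 10 := by exact_mod_cast h3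
      linarith
  · have hc : cw c w = 0 := by rw [cw_eq]; exact ind_f hw
    rw [hc]
    have := ind_nonneg (w ∈ SB c H v)
    simp only [zero_mul, mul_zero, add_zero, zero_add]
    linarith

theorem prod4 (h : Fin 6 → ℝ) {S : Finset (Fin 6)} (a b d e : Fin 6) (hS : S = {a, b, d, e})
    (h1 : a ∉ ({b, d, e} : Finset (Fin 6))) (h2 : b ∉ ({d, e} : Finset (Fin 6)))
    (h3 : d ∉ ({e} : Finset (Fin 6))) : ∏ s ∈ S, h s = h a * (h b * (h d * h e)) := by
  rw [hS, prod_insert h1, prod_insert h2, prod_insert h3, prod_singleton]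

theorem prod2 (h : Fin 6 → ℝ) {S : Finset (Fin 6)} (a b : Fin 6) (hS : S = {a, b})
    (h1 : a ∉ ({b} : Finset (Fin 6))) : ∏ s ∈ S, h s = h a * h b := by
  rw [hS, prod_insert h1, prod_singleton]

theorem pr (v : V) (p q a b d e : Fin 6) (hpq : p ≠ q) (hS : rst p q = {a, b, d, e})
    (h1 : a ∉ ({b, d, e} : Finset (Fin 6))) (h2 : b ∉ ({d, e} : Finset (Fin 6)))
    (h3 : d ∉ ({e} : Finset (Fin 6))) :
    ∑ w : Fin 6 → V, cw c w * ind (H v (w p) (w q)) = EE c H v (cls p) (cls q) *
      (sz c (cls a) * (sz c (cls b) * (sz c (cls d) * sz c (cls e)))) := by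
  rw [cw_pair v hpq, prod4 (fun s => sz c (cls s)) a b d e hS h1 h2 h3]

/-- the inequality for the densities -/
theorem six_ineq (v : V) (k : Fin 3) :
    2 * (EE c H v 0 0 * (sz c 1 ^ 2 * sz c 2 ^ 2) + EE c H v 1 1 * (sz c 0 ^ 2 * sz c 2 ^ 2) +
        EE c H v 2 2 * (sz c 0 ^ 2 * sz c 1 ^ 2)) +
      4 * (EE c H v 0 1 * (sz c 0 * sz c 1 * sz c 2 ^ 2) +
        EE c H v 1 2 * (sz c 1 * sz c 2 * sz c 0 ^ 2) +
        EE c H v 2 0 * (sz c 2 * sz c 0 * sz c 1 ^ 2)) +
      EE c H v k k * EE c H v (k + 1) (k + 1) * sz c (k + 2) ^ 2 ≤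
      10 * (sz c 0 ^ 2 * sz c 1 ^ 2 * sz c 2 ^ 2) + 9 * ((SB c H v).card : ℝ) := by
  have e01 := pr (c := c) (H := H) v 0 1 2 3 4 5 (by decide) (by decide) (by decide) (by decide)
    (by decide)
  have e23 := pr (c := c) (H := H) v 2 3 0 1 4 5 (by decide) (by decide) (by decide) (by decide)
    (by decide)
  have e45 := pr (c := c) (H := H) v 4 5 0 1 2 3 (by decide) (by decide) (by decide) (by decide)
    (by decide)
  have e02 := pr (c := c) (H := H) v 0 2 1 3 4 5 (by decide) (by decide) (by decide) (by decide)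
    (by decide)
  have e03 := pr (c := c) (H := H) v 0 3 1 2 4 5 (by decide) (by decide) (by decide) (by decide)
    (by decide)
  have e12 := pr (c := c) (H := H) v 1 2 0 3 4 5 (by decide) (by decide) (by decide) (by decide)
    (by decide)
  have e13 := pr (c := c) (H := H) v 1 3 0 2 4 5 (by decide) (by decide) (by decide) (by decide)
    (by decide)
  have e24 := pr (c := c) (H := H) v 2 4 0 1 3 5 (by decide) (by decide) (by decide) (by decide)
    (by decide)
  have e25 := pr (c := c) (H := H) v 2 5 0 1 3 4 (by decide) (by decide) (by decide) (by decide)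
    (by decide)
  have e34 := pr (c := c) (H := H) v 3 4 0 1 2 5 (by decide) (by decide) (by decide) (by decide)
    (by decide)
  have e35 := pr (c := c) (H := H) v 3 5 0 1 2 4 (by decide) (by decide) (by decide) (by decide)
    (by decide)
  have e40 := pr (c := c) (H := H) v 4 0 1 2 3 5 (by decide) (by decide) (by decide) (by decide)
    (by decide)
  have e41 := pr (c := c) (H := H) v 4 1 0 2 3 5 (by decide) (by decide) (by decide) (by decide)
    (by decide)
  have e50 := pr (c := c) (H := H) v 5 0 1 2 3 4 (by decide) (by decide) (by decide) (by decide)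
    (by decide)
  have e51 := pr (c := c) (H := H) v 5 1 0 2 3 4 (by decide) (by decide) (by decide) (by decide)
    (by decide)
  have c0 : cls 0 = 0 := rfl
  have c1 : cls 1 = 0 := rfl
  have c2 : cls 2 = 1 := rfl
  have c3 : cls 3 = 1 := rfl
  have c4 : cls 4 = 2 := rfl
  have c5 : cls 5 = 2 := rfl
  have hprod : ∏ s, sz c (cls s) = sz c 0 ^ 2 * sz c 1 ^ 2 * sz c 2 ^ 2 := by
    rw [Fin.prod_univ_six, c0, c1, c2, c3, c4, c5]; ring
  rw [c0, c1, c2, c3, c4, c5] at e01
  rw [c0, c1, c2, c3, c4, c5] at e23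
  rw [c0, c1, c2, c3, c4, c5] at e45
  rw [c0, c1, c2, c3, c4, c5] at e02
  rw [c0, c1, c2, c3, c4, c5] at e03
  rw [c0, c1, c2, c3, c4, c5] at e12
  rw [c0, c1, c2, c3, c4, c5] at e13
  rw [c0, c1, c2, c3, c4, c5] at e24
  rw [c0, c1, c2, c3, c4, c5] at e25
  rw [c0, c1, c2, c3, c4, c5] at e34
  rw [c0, c1, c2, c3, c4, c5] at e35
  rw [c0, c1, c2, c3, c4, c5] at e40
  rw [c0, c1, c2, c3, c4, c5] at e41
  rw [c0, c1, c2, c3, c4, c5] at e50
  rw [c0, c1, c2, c3, c4, c5] at e51
  have tn : ∀ (w : Fin 6 → V) (s s' : Fin 6), H v (w s) (w s') → (pat H v w s s').toNat = 1 := by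
    intro w s s' h
    unfold pat
    rw [decide_eq_true h]; rfl
  fin_cases k
  · have h := sum_ineq (c := c) (H := H) v 0 1 2 3 (fun w h1 h2 => by
      rw [tn w _ _ h1, tn w _ _ h2]; omega)
    have q := cw_quad (c := c) (H := H) v (p := 0) (q := 1) (r := 2) (s := 3) (by decide)
      (by decide) (by decide) (by decide) (by decide) (by decide)
    rw [prod2 (fun s => sz c (cls s)) 4 5 (by decide) (by decide)] at q
    simp only [c0, c1, c2, c3, c4, c5] at q
    rw [e01, e23, e45, e02, e03, e12, e13, e24, e25, e34, e35, e40, e41, e50, e51, hprod, q] at h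
    show _ + _ + EE c H v 0 0 * EE c H v 1 1 * sz c 2 ^ 2 ≤ _
    refine le_trans (le_of_eq ?_) h
    ring
  · have h := sum_ineq (c := c) (H := H) v 2 3 4 5 (fun w h1 h2 => by
      rw [tn w _ _ h1, tn w _ _ h2]; omega)
    have q := cw_quad (c := c) (H := H) v (p := 2) (q := 3) (r := 4) (s := 5) (by decide)
      (by decide) (by decide) (by decide) (by decide) (by decide)
    rw [prod2 (fun s => sz c (cls s)) 0 1 (by decide) (by decide)] at q
    simp only [c0, c1, c2, c3, c4, c5] at q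
    rw [e01, e23, e45, e02, e03, e12, e13, e24, e25, e34, e35, e40, e41, e50, e51, hprod, q] at h
    show _ + _ + EE c H v 1 1 * EE c H v 2 2 * sz c 0 ^ 2 ≤ _
    refine le_trans (le_of_eq ?_) h
    ring
  · have h := sum_ineq (c := c) (H := H) v 4 5 0 1 (fun w h1 h2 => by
      rw [tn w _ _ h1, tn w _ _ h2]; omega)
    have q := cw_quad (c := c) (H := H) v (p := 4) (q := 5) (r := 0) (s := 1) (by decide)
      (by decide) (by decide) (by decide) (by decide) (by decide)
    rw [prod2 (fun s => sz c (cls s)) 2 3 (by decide) (by decide)] at q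
    simp only [c0, c1, c2, c3, c4, c5] at q
    rw [e01, e23, e45, e02, e03, e12, e13, e24, e25, e34, e35, e40, e41, e50, e51, hprod, q] at h
    show _ + _ + EE c H v 2 2 * EE c H v 0 0 * sz c 1 ^ 2 ≤ _
    refine le_trans (le_of_eq ?_) h
    ring

end Pool.Agent.T2H13.BK
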