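import Pool.Agent.T2H13.BK.Blo

/-! The link of a vertex with few six-tuples of large weight is near a link of Turán's construction. -/

set_option autoImplicit false
set_option linter.unusedVariables false
set_option linter.unusedSectionVars false
set_option maxHeartbeats 4000000

open Finset
open scoped Classical

namespace Pool.Agent.T2H13.BK
open Pool.Agent.Y439.Loc hiding sum_nonneg' EE
open Pool.Agent.Y903.TX

variable {V : Type} [Fintype V] {c : V → Fin 3} {H : V → V → V → Prop}

/-- the other positions -/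
def rst (p q : Fin 6) : Finset (Fin 6) := (univ.erase p).erase q

theorem prod_rst {p q : Fin 6} (hpq : p ≠ q) (h : Fin 6 → ℝ) :
    ∏ s, h s = h p * h q * ∏ s ∈ rst p q, h s := by
  rw [rst, ← mul_prod_erase univ h (mem_univ p), ← mul_prod_erase (univ.erase p) h
    (mem_erase.mpr ⟨hpq.symm, mem_univ q⟩)]
  ring

theorem sum_pi (g : Fin 6 → V → ℝ) : ∑ w : Fin 6 → V, ∏ s, g s (w s) = ∏ s, ∑ x, g s x := by
  rw [Finset.prod_univ_sum, Fintype.piFinset_univ]

theorem pair_sum (g : Fin 6 → V → ℝ) (G : V → V → ℝ) {p q : Fin 6} (hpq : p ≠ q) :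
    ∑ w : Fin 6 → V, G (w p) (w q) * ∏ s ∈ rst p q, g s (w s) =
      (∑ a, ∑ b, G a b) * ∏ s ∈ rst p q, ∑ x, g s x := by
  have hp : ∀ s ∈ rst p q, s ≠ p ∧ s ≠ q := fun s hs => by
    rw [rst, mem_erase, mem_erase] at hs
    exact ⟨hs.2.1, hs.1⟩
  let h : V → V → Fin 6 → V → ℝ := fun a b s x =>
    if s = p then (if x = a then 1 else 0) else if s = q then (if x = b then 1 else 0) else g s x
  have e1 : ∀ a b, ∏ s, ∑ x, h a b s x = ∏ s ∈ rst p q, ∑ x, g s x := by
    intro a b
    rw [prod_rst hpq]
    have f1 : ∑ x, h a b p x = 1 := by simp [h]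
    have f2 : ∑ x, h a b q x = 1 := by simp [h, hpq.symm]
    rw [f1, f2, one_mul, one_mul]
    refine prod_congr rfl fun s hs => ?_
    obtain ⟨h1, h2⟩ := hp s hs
    simp [h, h1, h2]
  have e2 : ∀ a b (w : Fin 6 → V), ∏ s, h a b s (w s) =
      (if w p = a then 1 else 0) * (if w q = b then 1 else 0) * ∏ s ∈ rst p q, g s (w s) := by
    intro a b w
    rw [prod_rst hpq]
    have f1 : h a b p (w p) = if w p = a then 1 else 0 := by simp [h]
    have f2 : h a b q (w q) = if w q = b then 1 else 0 := by simp [h, hpq.symm]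
    rw [f1, f2]
    congr 1
    refine prod_congr rfl fun s hs => ?_
    obtain ⟨h1, h2⟩ := hp s hs
    simp [h, h1, h2]
  calc ∑ w : Fin 6 → V, G (w p) (w q) * ∏ s ∈ rst p q, g s (w s) =
        ∑ w : Fin 6 → V, ∑ a, ∑ b, G a b * ∏ s, h a b s (w s) := by
        refine sum_congr rfl fun w _ => ?_
        rw [sum_eq_single (w p)]
        · rw [sum_eq_single (w q)]
          · rw [e2]; simp
          · intro b _ hb
            rw [e2]; simp [hb.symm]
          · simp
        · intro a _ ha
          refine sum_eq_zero fun b _ => ?_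
          rw [e2]; simp [ha.symm]
        · simp
    _ = ∑ a, ∑ b, G a b * ∑ w : Fin 6 → V, ∏ s, h a b s (w s) := by
        rw [sum_comm]
        refine sum_congr rfl fun a _ => ?_
        rw [sum_comm]
        refine sum_congr rfl fun b _ => ?_
        rw [mul_sum]
    _ = ∑ a, ∑ b, G a b * ∏ s ∈ rst p q, ∑ x, g s x := by
        refine sum_congr rfl fun a _ => sum_congr rfl fun b _ => ?_
        rw [sum_pi, e1]
    _ = _ := by
        rw [sum_mul]
        refine sum_congr rfl fun a _ => ?_
        rw [sum_mul]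

/-- the weight of the classes -/
noncomputable def cw (c : V → Fin 3) (w : Fin 6 → V) : ℝ := ∏ s, ind (c (w s) = cls s)

theorem cw_eq (w : Fin 6 → V) : cw c w = ind (∀ s, c (w s) = cls s) := by
  unfold cw
  by_cases h : ∀ s, c (w s) = cls s
  · rw [ind_t h]
    exact prod_eq_one fun s _ => ind_t (h s)
  · rw [ind_f h]
    push Not at h
    obtain ⟨s, hs⟩ := h
    exact prod_eq_zero (mem_univ s) (ind_f hs)

theorem cw_nonneg (w : Fin 6 → V) : 0 ≤ cw c w := prod_nonneg fun _ _ => ind_nonneg _

theorem cw_sum : ∑ w : Fin 6 → V, cw c w = ∏ s, sz c (cls s) := by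
  unfold cw sz
  exact sum_pi fun s x => ind (c x = cls s)

theorem cw_pair (v : V) {p q : Fin 6} (hpq : p ≠ q) :
    ∑ w : Fin 6 → V, cw c w * ind (H v (w p) (w q)) =
      EE c H v (cls p) (cls q) * ∏ s ∈ rst p q, sz c (cls s) := by
  have h := pair_sum (V := V) (fun s x => ind (c x = cls s))
    (fun a b => ind ((c a = cls p ∧ c b = cls q) ∧ H v a b)) hpq
  unfold EE sz
  rw [← h]
  refine sum_congr rfl fun w _ => ?_
  unfold cw
  rw [prod_rst hpq, ind_mul, mul_right_comm, ind_mul]

theorem cw_quad (v : V) {p q r s : Fin 6} (hpq : p ≠ q) (hrs : r ≠ s) (hr : r ∈ rst p q)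
    (hs : s ∈ rst p q) (hp : p ∈ rst r s) (hq : q ∈ rst r s) :
    ∑ w : Fin 6 → V, cw c w * ind (H v (w p) (w q) ∧ H v (w r) (w s)) =
      EE c H v (cls p) (cls q) * (EE c H v (cls r) (cls s) *
        ∏ x ∈ (rst r s).filter (fun x => x ≠ p ∧ x ≠ q), sz c (cls x)) := by
  have hpr : p ≠ r ∧ p ≠ s := by
    rw [rst, mem_erase, mem_erase] at hp; exact ⟨hp.2.1, hp.1⟩
  have hqr : q ≠ r ∧ q ≠ s := by
    rw [rst, mem_erase, mem_erase] at hq; exact ⟨hq.2.1, hq.1⟩
  -- fix the vertices at the first pair
  have key : ∀ a b : V, ∑ w : Fin 6 → V, (if w p = a then (1 : ℝ) else 0) *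
      (if w q = b then 1 else 0) * (cw c w * ind (H v (w r) (w s))) =
      ind (c a = cls p) * ind (c b = cls q) * (EE c H v (cls r) (cls s) *
        ∏ x ∈ (rst r s).filter (fun x => x ≠ p ∧ x ≠ q), sz c (cls x)) := by
    intro a b
    have h := pair_sum (V := V) (fun x y => ind (c y = cls x) *
      (if x = p then (if y = a then 1 else 0) else if x = q then (if y = b then 1 else 0) else 1))
      (fun a b => ind ((c a = cls r ∧ c b = cls s) ∧ H v a b)) hrs
    have e1 : ∀ w : Fin 6 → V, ∏ x ∈ rst r s, (ind (c (w x) = cls x) *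
        (if x = p then (if w x = a then (1 : ℝ) else 0) else
          if x = q then (if w x = b then 1 else 0) else 1)) =
        (if w p = a then (1 : ℝ) else 0) * (if w q = b then 1 else 0) *
          ∏ x ∈ rst r s, ind (c (w x) = cls x) := by
      intro w
      rw [prod_mul_distrib, mul_comm]
      congr 1
      rw [← mul_prod_erase _ _ hp, ← mul_prod_erase _ _ (mem_erase.mpr ⟨hpq.symm, hq⟩)]
      rw [if_pos rfl, if_neg hpq.symm, if_pos rfl, ← mul_assoc]
      conv_rhs => rw [← mul_one ((if w p = a then (1 : ℝ) else 0) * if w q = b then 1 else 0)]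
      congr 1
      refine prod_eq_one fun x hx => ?_
      rw [mem_erase, mem_erase] at hx
      rw [if_neg hx.2.1, if_neg hx.1]
    have e2 : ∏ x ∈ rst r s, ∑ y, (ind (c y = cls x) *
        (if x = p then (if y = a then (1 : ℝ) else 0) else
          if x = q then (if y = b then 1 else 0) else 1)) =
        ind (c a = cls p) * ind (c b = cls q) *
          ∏ x ∈ (rst r s).filter (fun x => x ≠ p ∧ x ≠ q), sz c (cls x) := by
      rw [← mul_prod_erase _ _ hp, ← mul_prod_erase _ _ (mem_erase.mpr ⟨hpq.symm, hq⟩)]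
      have f1 : ∑ y, (ind (c y = cls p) * (if p = p then (if y = a then (1 : ℝ) else 0) else
          if p = q then (if y = b then 1 else 0) else 1)) = ind (c a = cls p) := by simp
      have f2 : ∑ y, (ind (c y = cls q) * (if q = p then (if y = a then (1 : ℝ) else 0) else
          if q = q then (if y = b then 1 else 0) else 1)) = ind (c b = cls q) := by
        simp [hpq.symm]
      rw [f1, f2, ← mul_assoc]
      congr 1
      have f3 : ((rst r s).erase p).erase q = (rst r s).filter (fun x => x ≠ p ∧ x ≠ q) := by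
        ext x
        simp only [mem_erase, mem_filter]
        tauto
      rw [f3]
      refine prod_congr rfl fun x hx => ?_
      rw [mem_filter] at hx
      unfold sz
      simp [hx.2.1, hx.2.2]
    rw [e2] at h
    have e3 : ∑ a, ∑ b, ind ((c a = cls r ∧ c b = cls s) ∧ H v a b) =
      EE c H v (cls r) (cls s) := rfl
    rw [e3] at h
    have e4 : ∀ w : Fin 6 → V, (if w p = a then (1 : ℝ) else 0) *
      (if w q = b then 1 else 0) * (cw c w * ind (H v (w r) (w s))) =
        ind ((c (w r) = cls r ∧ c (w s) = cls s) ∧ H v (w r) (w s)) *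
        ∏ x ∈ rst r s, (ind (c (w x) = cls x) *
        (if x = p then (if w x = a then (1 : ℝ) else 0) else
          if x = q then (if w x = b then 1 else 0) else 1)) := by
      intro w
      rw [e1]
      unfold cw
      rw [prod_rst hrs, ← ind_mul, ← ind_mul]
      ring
    rw [sum_congr rfl fun w _ => e4 w, h]
    ring
  calc ∑ w : Fin 6 → V, cw c w * ind (H v (w p) (w q) ∧ H v (w r) (w s)) =
        ∑ w : Fin 6 → V, ∑ a, ∑ b, ind (H v a b) * ((if w p = a then (1 : ℝ) else 0) *
      (if w q = b then 1 else 0) * (cw c w * ind (H v (w r) (w s)))) := by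
        refine sum_congr rfl fun w _ => ?_
        rw [sum_eq_single (w p)]
        · rw [sum_eq_single (w q)]
          · rw [if_pos rfl, if_pos rfl, ← ind_mul]; ring
          · intro b _ hb
            rw [if_neg hb.symm]; ring
          · simp
        · intro a _ ha
          refine sum_eq_zero fun b _ => ?_
          rw [if_neg ha.symm]; ring
        · simp
    _ = ∑ a, ∑ b, ind (H v a b) * ∑ w : Fin 6 → V, ((if w p = a then (1 : ℝ) else 0) *
      (if w q = b then 1 else 0) * (cw c w * ind (H v (w r) (w s)))) := by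
        rw [sum_comm]
        refine sum_congr rfl fun a _ => ?_
        rw [sum_comm]
        refine sum_congr rfl fun b _ => ?_
        rw [mul_sum]
    _ = _ := by
        unfold EE
        rw [sum_mul]
        refine sum_congr rfl fun a _ => ?_
        rw [sum_mul]
        refine sum_congr rfl fun b _ => ?_
        rw [key, ← ind_mul, ← ind_mul]
        unfold EE
        ring

end Pool.Agent.T2H13.BK
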