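import Pool.Agent.T2H13.BK.Asm
import Pool.Agent.Results.MP_f1799f_co.TripartitePieces

/-! Turán's number for 3-graphs with few cones over a book at every pair. -/

set_option autoImplicit false
set_option linter.unusedVariables false
set_option linter.unusedSectionVars false
set_option maxRecDepth 100000
set_option maxHeartbeats 4000000

open Finset
open scoped Classical

namespace Pool.Agent.T2H13.BK
open Pool.Agent.Y439.Loc hiding sum_nonneg' EE
open Pool.Agent.TH773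
open Pool.Agent.TH773.Turan34 (K43Free turan)
open Pool.Agent.Y439
open Pool.Agent.Y903.TX
open Pool.Agent.R105.TP
open Pool.Agent.Results.MP_f1799f_co.TripartitePieces (indCopies cone split mem_copies mem_coneS
  fS forces_book Forces Few set_eq copies)

section
variable {n t : ℕ} {H : Finset (Finset (Fin n))}

/-- a copy of the cone gives a cone -/
theorem bk_of_copy {f : Option (Fin 2 ⊕ Fin t) → Fin n} (hfc : f ∈ copies (cone (split 2 t)) H) :
    Bk (Loc.Rel H) (f none) (f (some (Sum.inl 0))) (f (some (Sum.inl 1)))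
      fun i => f (some (Sum.inr i)) := by
  obtain ⟨hf, h⟩ := mem_copies.mp hfc
  have key : ∀ u v w : Option (Fin 2 ⊕ Fin t), u ≠ v → u ≠ w → v ≠ w →
      (Loc.Rel H (f u) (f v) (f w) ↔ fS u v w) := by
    intro u v w h1 h2 h3
    have h4 := h u v w h1 h2 h3
    rw [set_eq, mem_coneS h1 h2 h3] at h4
    rw [h4]
    unfold Loc.Rel
    exact ⟨fun h5 => h5.2.2.2, fun h5 => ⟨hf.ne h1, hf.ne h3, hf.ne h2, h5⟩⟩
  have n0 : ∀ x : Fin 2 ⊕ Fin t, (none : Option (Fin 2 ⊕ Fin t)) ≠ some x :=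
    fun x => (Option.some_ne_none x).symm
  have e01 : (some (Sum.inl 0) : Option (Fin 2 ⊕ Fin t)) ≠ some (Sum.inl 1) := fun e => by
    simp at e
  have elr : ∀ (k : Fin 2) (i : Fin t), (some (Sum.inl k) : Option (Fin 2 ⊕ Fin t)) ≠
    some (Sum.inr i) := fun k i e => by simp at e
  have err : ∀ {i j : Fin t}, i ≠ j → (some (Sum.inr i) : Option (Fin 2 ⊕ Fin t)) ≠
    some (Sum.inr j) := fun hij e => hij (Sum.inr.inj (Option.some.inj e))
  constructor
  · rw [key _ _ _ (n0 _) (n0 _) e01]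
    simp [fS]
  · intro i
    rw [key _ _ _ (n0 _) (n0 _) (elr 0 i)]
    simp [fS]
  · intro i
    rw [key _ _ _ (n0 _) (n0 _) (elr 1 i)]
    simp [fS]
  · intro i
    rw [key _ _ _ e01 (elr 0 i) (elr 1 i)]
    simp [fS]
  · intro i j hij
    rw [key _ _ _ (n0 _) (n0 _) (err hij)]
    simp [fS]
  · intro i j hij
    rw [key _ _ _ (elr 0 i) (elr 0 j) (err hij)]
    simp [fS]
  · intro i j hij
    rw [key _ _ _ (elr 1 i) (elr 1 j) (err hij)]
    simp [fS]
  · intro i j k hij hik hjk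
    rw [key _ _ _ (err hij) (err hik) (err hjk)]
    simp [fS]
  · intro i j hij
    exact Sum.inr.inj (Option.some.inj (hf hij))

/-- the number of copies -/
theorem copies_books : indCopies (cone (split 2 t)) H ≤ ∑ v, (BA (Loc.Rel H) t v).card := by
  have h0 : indCopies (cone (split 2 t)) H = (copies (cone (split 2 t)) H).card := rfl
  rw [h0, ← card_sigma]
  refine card_le_card_of_injOn (fun f => (⟨f none, fun x => f (some x)⟩ :
    (_ : Fin n) × (Fin 2 ⊕ Fin t → Fin n))) ?_ ?_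
  · intro f hf
    refine mem_coe.2 (mem_sigma.2 ⟨mem_univ _, ?_⟩)
    unfold BA
    exact mem_filter.2 ⟨mem_univ _, bk_of_copy (mem_coe.1 hf)⟩
  · intro f _ g _ h
    simp only [Sigma.mk.injEq, heq_eq_eq] at h
    funext x
    rcases x with _ | x
    · exact h.1
    · exact congrFun h.2 x

end

theorem cls_E (t : ℕ) {σ τ η ε κ e m δ : ℝ} {N0 : ℕ} (P : Par t σ τ η ε κ e m)
    (hδ : 2 * m ≤ δ) (hst : ∀ n, N0 ≤ n → ∀ H : Finset (Finset (Fin n)),
      (∀ e ∈ H, e.card = 3) → K43Free H → (Few (cone (split 2 t)) H δ) →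
      (H.card : ℝ) ≤ (5 / 9 + e ^ 2 / 72) * (n.choose 3 : ℝ) ∧ ∃ g : Fin n → Fin 3,
        ((symmDiff H (turan g)).card : ℝ) ≤
          1161216000 * (5 / 54 * (n : ℝ) ^ 3 - H.card) + e ^ 2 / 72 * (n : ℝ) ^ 3) :
    ClsE e (fun N n H => 2 * N0 ≤ N ∧ ∀ x y, x ≠ y →
      (cop t (Loc.Rel H) x y : ℝ) ≤ m / 2 ^ (t + 1) * (N : ℝ) ^ (t + 1)) 1161216000 TurG where
  K0 := by norm_num
  her N k v H hP := ⟨hP.1, fun x y hxy => by
    have h1 := hP.2 (v.succAbove x) (v.succAbove y)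
      (fun e => hxy (Fin.succAbove_right_injective e))
    have h2 : (cop t (Loc.Rel (del v H)) x y : ℝ) ≤
        (cop t (Loc.Rel H) (v.succAbove x) (v.succAbove y) : ℝ) := by
      exact_mod_cast cop_del v H x y
    exact h2.trans h1⟩
  stab N n hn hN H hH hK hP := by
    have hn' : (0 : ℝ) < n := by exact_mod_cast hn
    have hm := P.m0
    have hM : ∀ x y, x ≠ y → (cop t (Loc.Rel H) x y : ℝ) ≤ m * (n : ℝ) ^ (t + 1) := by
      intro x y hxy
      refine (hP.2 x y hxy).trans ?_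
      have h1 : (N : ℝ) ≤ 2 * n := by exact_mod_cast hN
      have h2 : (N : ℝ) ^ (t + 1) ≤ (2 * n) ^ (t + 1) :=
        pow_le_pow_left₀ (Nat.cast_nonneg _) h1 _
      calc m / 2 ^ (t + 1) * (N : ℝ) ^ (t + 1) ≤ m / 2 ^ (t + 1) * (2 * n) ^ (t + 1) :=
            mul_le_mul_of_nonneg_left h2 (by positivity)
        _ = m * (n : ℝ) ^ (t + 1) := by rw [mul_pow]; field_simp
    have hnn : (Fintype.card (Fin n) : ℝ) = n := by rw [Fintype.card_fin]
    have hs : ∀ x y z, Loc.Rel H x y z → x ≠ y := fun x y z h => h.1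
    have hc : (indCopies (cone (split 2 t)) H : ℝ) ≤ δ * (n : ℝ) ^ (t + 3) := by
      have h1 : (indCopies (cone (split 2 t)) H : ℝ) ≤
          ∑ v, ((BA (Loc.Rel H) t v).card : ℝ) := by exact_mod_cast copies_books
      have h2 : ∀ v ∈ (univ : Finset (Fin n)), ((BA (Loc.Rel H) t v).card : ℝ) ≤
          2 * (n * (m * (n : ℝ) ^ (t + 1))) := by
        intro v _
        have hv := vertex_books (H := Loc.Rel H) hs (t := t)
          (B := m * (n : ℝ) ^ (t + 1)) v (fun y hy => hM v y hy)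
          (mul_nonneg hm.le (by positivity))
        rw [hnn] at hv
        have h3 : (0 : ℝ) ≤ ((BS (Loc.Rel H) t v).card : ℝ) := Nat.cast_nonneg _
        linarith
      refine h1.trans ((sum_le_sum h2).trans ?_)
      rw [sum_const, card_univ, nsmul_eq_mul, hnn]
      calc (n : ℝ) * (2 * (n * (m * (n : ℝ) ^ (t + 1)))) = 2 * m * (n : ℝ) ^ (t + 3) := by ring
        _ ≤ _ := mul_le_mul_of_nonneg_right hδ (by positivity)
    have hcard : Fintype.card (Option (Fin 2 ⊕ Fin t)) = t + 3 := by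
      rw [Fintype.card_option, Fintype.card_sum, Fintype.card_fin, Fintype.card_fin]
      omega
    obtain ⟨h1, g, hg⟩ := hst n (by have := hP.1; omega) H hH hK (by
      unfold Few
      rw [hcard]
      exact hc)
    refine ⟨h1.trans ?_, g, hg⟩
    have h2 : (n.choose 3 : ℝ) ≤ (n : ℝ) ^ 3 / 6 := by
      have h3 := Nat.choose_le_pow_div (α := ℝ) 3 n
      have h4 : ((Nat.factorial 3 : ℕ) : ℝ) = 6 := by norm_num [Nat.factorial]
      rwa [h4] at h3
    have h3 : 0 ≤ e ^ 2 := by positivity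
    calc (5 / 9 + e ^ 2 / 72) * (n.choose 3 : ℝ) ≤ (5 / 9 + e ^ 2 / 72) * ((n : ℝ) ^ 3 / 6) :=
          mul_le_mul_of_nonneg_left h2 (by positivity)
      _ = (5 / 54 + e ^ 2 / 432) * (n : ℝ) ^ 3 := by ring
      _ ≤ _ := mul_le_mul_of_nonneg_right (by linarith) (by positivity)
  core N n hn hN H g hH hK hP hn1 h1 h2 hdeg := by
    refine core_bk P hn hH hK g (fun x y hxy => ?_) hn1 h1 h2 hdeg
    have hm := P.m0
    refine (hP.2 x y hxy).trans ?_
    have h1 : (N : ℝ) ≤ 2 * n := by exact_mod_cast hN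
    have h2 : (N : ℝ) ^ (t + 1) ≤ (2 * n) ^ (t + 1) :=
      pow_le_pow_left₀ (Nat.cast_nonneg _) h1 _
    calc m / 2 ^ (t + 1) * (N : ℝ) ^ (t + 1) ≤ m / 2 ^ (t + 1) * (2 * n) ^ (t + 1) :=
          mul_le_mul_of_nonneg_left h2 (by positivity)
      _ = m * (n : ℝ) ^ (t + 1) := by rw [mul_pow]; field_simp

/-- **The exact numbers.** -/
theorem exact_books (t : ℕ) : ∃ c : ℝ, 0 < c ∧ ∃ n0 : ℕ, ∀ n, n0 ≤ n →
    ∀ H : Finset (Finset (Fin n)), (∀ e ∈ H, e.card = 3) → K43Free H →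
      (∀ x y, x ≠ y → (cop t (Loc.Rel H) x y : ℝ) ≤ c * (n : ℝ) ^ (t + 1)) →
        H.card ≤ tnum n ∧ (H.card = tnum n → ∃ g : Fin n → Fin 3, H = turan g) := by
  obtain ⟨σ, τ, η, ε, κ, e, m0, P0, hP⟩ := params t
  have he0 := P0.e0
  have hm0 := P0.m0
  obtain ⟨δ, hδ, N0, hst⟩ := forces_book t (e ^ 2 / 72) (by positivity)
  obtain ⟨m, hm⟩ : ∃ m : ℝ, m = min m0 (δ / 2) := ⟨_, rfl⟩
  have hmp : 0 < m := by rw [hm]; exact lt_min hm0 (by positivity)
  have hmδ : 2 * m ≤ δ := by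
    have : m ≤ δ / 2 := by rw [hm]; exact min_le_right _ _
    linarith
  have P := hP m hmp (by rw [hm]; exact min_le_left _ _)
  obtain ⟨n0, h⟩ := exact_of_clsE P.e0 P.e1 (cls_E t P hmδ hst)
  refine ⟨m / 2 ^ (t + 1), by positivity, max n0 (2 * N0), fun n hn H h3 hK hP => ?_⟩
  have hn1 : n0 ≤ n := (le_max_left _ _).trans hn
  have hn2 : 2 * N0 ≤ n := (le_max_right _ _).trans hn
  by_cases hc : tnum n ≤ H.card
  · obtain ⟨h1, g, hg⟩ := h n hn1 H h3 hK ⟨hn2, hP⟩ hc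
    exact ⟨h1.le, fun _ => ⟨g, by rw [turan_tgraph]; exact hg⟩⟩
  · have h1 := not_le.1 hc
    exact ⟨h1.le, fun h => absurd h h1.ne⟩

end Pool.Agent.T2H13.BK
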